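import Pool.Agent.Y88.MH.Rep

/-!
# Multigraded Hilbert schemes for coarser gradings
-/

set_option autoImplicit false

open MvPolynomial

universe u

namespace Pool.Agent.Y88.MH

open Pool.Agent.Results.MP_411355_ag.Disconnected CategoryTheory AlgebraicGeometry

variable {A B : Type} [AddCommGroup A] [AddCommGroup B] {n : ℕ}

/-- The grading `w'` is coarser than `w`, but it separates the degrees in which `h` is not zero from
each other and from the degrees of the minimal monomials in the other degrees. -/
structure Coarse (f : A →+ B) (w : Fin n → A) (h : A → ℕ) (w' : Fin n → B) (h' : B → ℕ) :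
    Prop where
  wt : ∀ i, w' i = f (w i)
  inj : ∀ a a', h a ≠ 0 → h a' ≠ 0 → f a = f a' → a = a'
  hval : ∀ a, h a ≠ 0 → h' (f a) = h a
  hout : ∀ b, (∀ a, h a ≠ 0 → f a ≠ b) → h' b = 0
  div : ∀ u : Fin n →₀ ℕ, h (Finsupp.weight w u) = 0 →
    ∃ v : Fin n →₀ ℕ, v ≤ u ∧ h' (Finsupp.weight w' v) = 0

variable {f : A →+ B} {w : Fin n → A} {h : A → ℕ} {w' : Fin n → B} {h' : B → ℕ}
  {T : Type u} [CommRing T]

lemma Coarse.weight (H : Coarse f w h w' h') (u : Fin n →₀ ℕ) :
    Finsupp.weight w' u = f (Finsupp.weight w u) := by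
  rw [Finsupp.weight_apply, Finsupp.weight_apply, map_finsuppSum]
  apply Finsupp.sum_congr
  intro i _
  rw [H.wt, map_nsmul]

/-- the ideal contains all monomials of the degrees in which `h` is zero -/
def Full (w : Fin n → A) (h : A → ℕ) (I : Ideal (MvPolynomial (Fin n) T)) : Prop :=
  ∀ u : Fin n →₀ ℕ, h (Finsupp.weight w u) = 0 → (monomial u (1 : T)) ∈ I

lemma mem_of_support {I : Ideal (MvPolynomial (Fin n) T)} (G : MvPolynomial (Fin n) T)
    (hG : ∀ u, coeff u G ≠ 0 → (monomial u (1 : T)) ∈ I) : G ∈ I := by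
  rw [G.as_sum]
  apply I.sum_mem
  intro u hu
  have h1 : monomial u (coeff u G) = C (coeff u G) * monomial u (1 : T) := by
    rw [C_mul_monomial, mul_one]
  rw [h1]
  exact I.mul_mem_left _ (hG u (mem_support_iff.1 hu))

lemma Coarse.diff (H : Coarse f w h w' h') {I : Ideal (MvPolynomial (Fin n) T)}
    (hI : Full w h I) (F : MvPolynomial (Fin n) T) (a : A) (ha : h a ≠ 0) :
    weightedHomogeneousComponent w' (f a) F - weightedHomogeneousComponent w a F ∈ I := by
  classical
  apply mem_of_support
  intro u hu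
  apply hI
  by_contra hne
  apply hu
  rw [coeff_sub, coeff_weightedHomogeneousComponent, coeff_weightedHomogeneousComponent, H.weight]
  by_cases h1 : Finsupp.weight w u = a
  · rw [if_pos h1, if_pos (congrArg f h1), sub_self]
  · rw [if_neg h1, if_neg (fun h2 => h1 (H.inj _ _ hne ha h2)), sub_zero]

lemma Coarse.out (H : Coarse f w h w' h') {I : Ideal (MvPolynomial (Fin n) T)}
    (hI : Full w h I) {F : MvPolynomial (Fin n) T} {b : B} (hb : ∀ a, h a ≠ 0 → f a ≠ b)
    (hF : F ∈ weightedHomogeneousSubmodule T w' b) : F ∈ I := by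
  apply mem_of_support
  intro u hu
  apply hI
  by_contra hne
  have h1 : Finsupp.weight w' u = b := hF hu
  rw [H.weight] at h1
  exact hb _ hne h1

lemma out' {I : Ideal (MvPolynomial (Fin n) T)} (hI : Full w h I)
    {F : MvPolynomial (Fin n) T} {a : A} (ha : h a = 0)
    (hF : F ∈ weightedHomogeneousSubmodule T w a) : F ∈ I := by
  apply mem_of_support
  intro u hu
  apply hI
  have h1 : Finsupp.weight w u = a := hF hu
  rw [h1, ha]

lemma zero_piece {I : Ideal (MvPolynomial (Fin n) T)} (a : A)
    (hI : ∀ F ∈ weightedHomogeneousSubmodule T w a, F ∈ I) :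
    LocallyFreeOfRank T (GradedPiece w I a) 0 := by
  have hs : Subsingleton (GradedPiece w I a) := by
    constructor
    have h0 : ∀ x : GradedPiece w I a, x = 0 := by
      intro x
      obtain ⟨⟨F, hF⟩, rfl⟩ := Submodule.mkQ_surjective _ x
      rw [Submodule.mkQ_apply, Submodule.Quotient.mk_eq_zero]
      exact hI F hF
    intro x y
    rw [h0 x, h0 y]
  exact (LocallyFreeOfRank.pi 0).congr (0 : (Fin 0 → T) ≃ₗ[T] _)

lemma Coarse.piece (H : Coarse f w h w' h') {I : Ideal (MvPolynomial (Fin n) T)}
    (hI : Full w h I) (a : A) (ha : h a ≠ 0) :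
    Nonempty (GradedPiece w I a ≃ₗ[T] GradedPiece w' I (f a)) := by
  have hm : ∀ F ∈ weightedHomogeneousSubmodule T w a,
      F ∈ weightedHomogeneousSubmodule T w' (f a) := by
    intro F hF u hu
    have h1 : Finsupp.weight w u = a := hF hu
    rw [H.weight, h1]
  let p : weightedHomogeneousSubmodule T w a →ₗ[T] weightedHomogeneousSubmodule T w' (f a) :=
    LinearMap.codRestrict _ (weightedHomogeneousSubmodule T w a).subtype (fun F => hm F F.2)
  let q : weightedHomogeneousSubmodule T w a →ₗ[T] GradedPiece w' I (f a) :=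
    Submodule.mkQ _ ∘ₗ p
  have hker : LinearMap.ker q = (I.restrictScalars T).comap
        (weightedHomogeneousSubmodule T w a).subtype := by
    ext ⟨F, hF⟩
    rw [LinearMap.mem_ker]
    change (Submodule.Quotient.mk (p ⟨F, hF⟩) : GradedPiece w' I (f a)) = 0 ↔ _
    rw [Submodule.Quotient.mk_eq_zero]
    rfl
  have hsurj : Function.Surjective q := by
    intro y
    obtain ⟨⟨F, hF⟩, rfl⟩ := Submodule.mkQ_surjective _ y
    refine ⟨⟨weightedHomogeneousComponent w a F,
      weightedHomogeneousComponent_isWeightedHomogeneous a F⟩, ?_⟩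
    symm
    change (Submodule.Quotient.mk _ : GradedPiece w' I (f a)) = Submodule.Quotient.mk _
    rw [Submodule.Quotient.eq]
    change F - weightedHomogeneousComponent w a F ∈ I
    classical
    have h1 := H.diff hI F a ha
    rwa [weightedHomogeneousComponent_of_mem hF, if_pos rfl] at h1
  have e := q.quotKerEquivOfSurjective hsurj
  rw [hker] at e
  exact ⟨e⟩

lemma Coarse.mem_iff (H : Coarse f w h w' h') (I : Ideal (MvPolynomial (Fin n) T)) :
    I ∈ hilb w h T ↔ I ∈ hilb w' h' T := by
  constructor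
  · intro hI
    have hfull : Full w h I := fun u hu => monomial_mem_of_degree_zero hI u hu 1
    refine ⟨?_, ?_⟩
    · intro F hF b
      by_cases hb : ∃ a, h a ≠ 0 ∧ f a = b
      · obtain ⟨a, ha, rfl⟩ := hb
        have h1 := I.add_mem (H.diff hfull F a ha) (hI.1 F hF a)
        rwa [sub_add_cancel] at h1
      · exact H.out hfull (fun a ha hab => hb ⟨a, ha, hab⟩)
          (weightedHomogeneousComponent_isWeightedHomogeneous b F)
    · intro b
      by_cases hb : ∃ a, h a ≠ 0 ∧ f a = b
      · obtain ⟨a, ha, rfl⟩ := hb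
        obtain ⟨e⟩ := H.piece hfull a ha
        rw [H.hval a ha]
        exact (hI.2 a).congr e
      · rw [H.hout b (fun a ha hab => hb ⟨a, ha, hab⟩)]
        exact zero_piece b (fun F hF => H.out hfull (fun a ha hab => hb ⟨a, ha, hab⟩) hF)
  · intro hI
    have hfull : Full w h I := by
      intro u hu
      obtain ⟨v, hv, h1⟩ := H.div u hu
      have h2 := monomial_mem_of_degree_zero hI v h1 (1 : T)
      have h3 : monomial u (1 : T) = monomial (u - v) (1 : T) * monomial v (1 : T) := by
        rw [monomial_mul, tsub_add_cancel_of_le hv, mul_one]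
      rw [h3]
      exact I.mul_mem_left _ h2
    refine ⟨?_, ?_⟩
    · intro F hF a
      by_cases ha : h a = 0
      · exact out' hfull ha (weightedHomogeneousComponent_isWeightedHomogeneous a F)
      · have h1 := I.sub_mem (hI.1 F hF (f a)) (H.diff hfull F a ha)
        rwa [sub_sub_cancel] at h1
    · intro a
      by_cases ha : h a = 0
      · rw [ha]
        exact zero_piece a (fun F hF => out' hfull ha hF)
      · obtain ⟨e⟩ := H.piece hfull a ha
        have h1 := hI.2 (f a)
        rw [H.hval a ha] at h1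
        exact h1.congr e.symm

lemma Rep.coarse {k : Type u} [Field k] {R : Type u} [CommRing R] [Algebra k R]
    (H : Rep k w h R) (E : Coarse f w h w' h') : Rep k w' h' R := by
  obtain ⟨Ψ, hΨ⟩ := H
  refine ⟨fun T _ _ => (Ψ T).trans (Equiv.setCongr (Set.ext fun I => E.mem_iff I)), ?_⟩
  intro T T' _ _ _ _ φ g
  exact hΨ T T' φ g

end Pool.Agent.Y88.MH
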