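import Pool.Agent.Y88.MH.Prod

/-!
# Multigraded Hilbert schemes consisting of `2 ^ N` points
-/

set_option autoImplicit false

open MvPolynomial TensorProduct

universe u

namespace Pool.Agent.Y88.MH

open Pool.Agent.Results.MP_411355_ag.Disconnected CategoryTheory AlgebraicGeometry

variable {A A₁ A₂ : Type} [AddCommGroup A] [AddCommGroup A₁] [AddCommGroup A₂] {m₁ m₂ n : ℕ}

lemma exists_glue (f₁ : A₁ →+ A) (f₂ : A₂ →+ A)
    (ind : ∀ a b a' b', f₁ a + f₂ b = f₁ a' + f₂ b' → a = a' ∧ b = b')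
    (w₁ : Fin m₁ → A₁) (w₂ : Fin m₂ → A₂) (h₁ : A₁ → ℕ) (h₂ : A₂ → ℕ)
    (p₁ : ∀ u : Fin m₁ →₀ ℕ, Finsupp.weight w₁ u = 0 → u = 0)
    (p₂ : ∀ u : Fin m₂ →₀ ℕ, Finsupp.weight w₂ u = 0 → u = 0) (o₁ : h₁ 0 = 1) (o₂ : h₂ 0 = 1) :
    ∃ (w : Fin (m₁ + m₂) → A) (h : A → ℕ),
      Glue (Fin.castAdd m₂) (Fin.natAdd m₁) f₁ f₂ w₁ w₂ h₁ h₂ w h := by
  classical
  have i1 : Function.Injective f₁ := fun a b hab => (ind a 0 b 0 (by rw [hab])).1
  have i2 : Function.Injective f₂ := fun a b hab => (ind 0 a 0 b (by rw [hab])).2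
  have v1 : ∀ a, (if hc : ∃ a', f₁ a' = f₁ a then h₁ hc.choose else
      if hc' : ∃ b, f₂ b = f₁ a then h₂ hc'.choose else 0) = h₁ a := by
    intro a
    have hc : ∃ a', f₁ a' = f₁ a := ⟨a, rfl⟩
    rw [dif_pos hc]
    congr 1
    exact i1 hc.choose_spec
  have v2 : ∀ b, (if hc : ∃ a', f₁ a' = f₂ b then h₁ hc.choose else
      if hc' : ∃ b', f₂ b' = f₂ b then h₂ hc'.choose else 0) = h₂ b := by
    intro b
    by_cases hc : ∃ a', f₁ a' = f₂ b
    · rw [dif_pos hc]
      have h3 := ind hc.choose 0 0 b (by rw [hc.choose_spec, map_zero, map_zero, add_comm])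
      rw [h3.1, ← h3.2, o₁, o₂]
    · have hc' : ∃ b', f₂ b' = f₂ b := ⟨b, rfl⟩
      rw [dif_neg hc, dif_pos hc']
      congr 1
      exact i2 hc'.choose_spec
  refine ⟨Fin.addCases (fun i => f₁ (w₁ i)) (fun j => f₂ (w₂ j)),
    fun c => if hc : ∃ a, f₁ a = c then h₁ hc.choose else
      if hc' : ∃ b, f₂ b = c then h₂ hc'.choose else 0, ?_⟩
  exact
    { fst :=
        { g_inj := Fin.castAdd_injective m₁ m₂
          f_inj := i1
          wt := fun i => Fin.addCases_left i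
          pt := p₁ }
      snd :=
        { g_inj := Fin.natAdd_injective m₂ m₁
          f_inj := i2
          wt := fun i => Fin.addCases_right i
          pt := p₂ }
      disj := fun i j hh => by
        have h1 := congrArg Fin.val hh
        rw [Fin.val_castAdd, Fin.val_natAdd] at h1
        omega
      cov := fun l => by
        refine Fin.addCases (fun i => ?_) (fun j => ?_) l
        · exact Or.inl ⟨i, rfl⟩
        · exact Or.inr ⟨j, rfl⟩
      ind := ind
      one₁ := o₁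
      one₂ := o₂
      v₁ := v1
      v₂ := v2
      v₀ := fun c h1 h2 => by
        have h1' : ¬ ∃ a, f₁ a = c := h1
        have h2' : ¬ ∃ b, f₂ b = c := h2
        rw [dif_neg h1', dif_neg h2'] }

lemma Glue.pt {g₁ : Fin m₁ → Fin n} {g₂ : Fin m₂ → Fin n} {f₁ : A₁ →+ A} {f₂ : A₂ →+ A}
    {w₁ : Fin m₁ → A₁} {w₂ : Fin m₂ → A₂} {h₁ : A₁ → ℕ} {h₂ : A₂ → ℕ} {w : Fin n → A}
    {h : A → ℕ} (G : Glue g₁ g₂ f₁ f₂ w₁ w₂ h₁ h₂ w h) (u : Fin n →₀ ℕ)
    (hu : Finsupp.weight w u = 0) : u = 0 := by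
  rw [G.decomp u, map_add, G.fst.weight_mapDomain, G.snd.weight_mapDomain] at hu
  obtain ⟨h1, h2⟩ := G.ind _ _ 0 0 (by rw [hu, map_zero, map_zero, add_zero])
  rw [G.decomp u, G.fst.pt _ h1, G.snd.pt _ h2, Finsupp.mapDomain_zero, Finsupp.mapDomain_zero,
    add_zero]

lemma wt_pt (u : Fin 3 →₀ ℕ) (hu : Finsupp.weight wt u = 0) : u = 0 := by
  rw [eq_E u, weight_wt] at hu
  have h1 := congrArg Prod.fst hu
  have h2 := congrArg Prod.snd hu
  simp only [Prod.fst_zero, Prod.snd_zero] at h1 h2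
  ext l
  rw [Finsupp.zero_apply]
  fin_cases l
  · change u 0 = 0
    omega
  · change u 1 = 0
    omega
  · change u 2 = 0
    omega

/-- the statement proved by induction -/
def Stm (k : Type u) [Field k] (N : ℕ) : Prop :=
  ∀ (B : Type) [AddCommGroup B] (f : (Fin (N + 1) → ℤ × ℤ) →+ B), Function.Injective f →
    ∃ (w : Fin (3 * (N + 1)) → B) (h : B → ℕ), Rep k w h (Fin (2 ^ (N + 1)) → k) ∧ h 0 = 1 ∧
      (∀ u : Fin (3 * (N + 1)) →₀ ℕ, Finsupp.weight w u = 0 → u = 0) ∧ ∃ d, h d = 0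

/-- `k × k` as a ring of functions -/
noncomputable def prodEquiv (k : Type u) [Field k] : (k × k) ≃ₐ[k] (Fin (2 ^ (0 + 1)) → k) :=
  AlgEquiv.ofLinearEquiv
    { toFun := fun p => ![p.1, p.2]
      invFun := fun q => (q 0, q 1)
      left_inv := fun p => rfl
      right_inv := fun q => by
        funext i
        fin_cases i <;> rfl
      map_add' := fun p q => by
        funext i
        fin_cases i <;> rfl
      map_smul' := fun c p => by
        funext i
        fin_cases i <;> rfl }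
    (by
      funext i
      fin_cases i <;> rfl)
    (fun p q => by
      funext i
      fin_cases i <;> rfl)

lemma stm_zero (k : Type u) [Field k] : Stm k 0 := by
  intro B _ f hf
  let c : ℤ × ℤ →+ (Fin (0 + 1) → ℤ × ℤ) :=
    { toFun := fun x _ => x
      map_zero' := rfl
      map_add' := fun _ _ => rfl }
  have hc : Function.Injective (f.comp c) := by
    intro x y hxy
    exact congrFun (hf hxy) 0
  obtain ⟨w', h', E⟩ := exists_ext (le_refl 3) (f.comp c) hc wt hfun (8, 0) (by decide)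
  refine ⟨w', h', ?_, ?_, ?_, ⟨f.comp c (8, 0), ?_⟩⟩
  · exact ((rep_disc k).ext E).congr (prodEquiv k)
  · have h1 := E.hval 0
    rw [map_zero] at h1
    rw [h1]
    decide
  · intro u hu
    have h1 := weight_mapDomain E u
    have h2 : u.mapDomain (Fin.castLE (le_refl 3)) = u := Finsupp.mapDomain_id
    rw [h2] at h1
    apply wt_pt
    apply hc
    rw [← h1, map_zero]
    exact hu
  · rw [E.hval]
    decide

/-- the ring of the functions on twice as many points -/
noncomputable def doubleEquiv (k : Type u) [Field k] (M : ℕ) :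
    (Fin M → k) ⊗[k] (k × k) ≃ₐ[k] (Fin (M + M) → k) :=
  (Algebra.TensorProduct.prodRight k k (Fin M → k) k k).trans
    (((Algebra.TensorProduct.rid k k (Fin M → k)).prodCongr
      (Algebra.TensorProduct.rid k k (Fin M → k))).trans
      ((AlgEquiv.sumArrowEquivProdArrow (Fin M) (Fin M) k k).symm.trans
        (AlgEquiv.piCongrLeft k (fun _ : Fin (M + M) => k) finSumFinEquiv)))

lemma stm_succ (k : Type u) [Field k] (N : ℕ) (hN : Stm k N) : Stm k (N + 1) := by
  intro B _ f hf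
  obtain ⟨w₁, h₁, H₁, o₁, p₁, d, hd⟩ := hN (Fin (N + 1) → ℤ × ℤ) (AddMonoidHom.id _)
    Function.injective_id
  let e₁ : (Fin (N + 1) → ℤ × ℤ) →+ (Fin (N + 1 + 1) → ℤ × ℤ) :=
    { toFun := fun a => Fin.snoc (α := fun _ => ℤ × ℤ) a 0
      map_zero' := by
        funext i
        refine Fin.lastCases ?_ (fun j => ?_) i
        · rw [Fin.snoc_last]; rfl
        · rw [Fin.snoc_castSucc]; rfl
      map_add' := fun a b => by
        funext i
        refine Fin.lastCases ?_ (fun j => ?_) i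
        · rw [Pi.add_apply, Fin.snoc_last, Fin.snoc_last, Fin.snoc_last, add_zero]
        · rw [Pi.add_apply, Fin.snoc_castSucc, Fin.snoc_castSucc, Fin.snoc_castSucc,
            Pi.add_apply] }
  let e₂ : (ℤ × ℤ) →+ (Fin (N + 1 + 1) → ℤ × ℤ) :=
    { toFun := fun b => Fin.snoc (α := fun _ => ℤ × ℤ) 0 b
      map_zero' := by
        funext i
        refine Fin.lastCases ?_ (fun j => ?_) i
        · rw [Fin.snoc_last]; rfl
        · rw [Fin.snoc_castSucc]; rfl
      map_add' := fun a b => by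
        funext i
        refine Fin.lastCases ?_ (fun j => ?_) i
        · rw [Pi.add_apply, Fin.snoc_last, Fin.snoc_last, Fin.snoc_last]
        · rw [Pi.add_apply, Fin.snoc_castSucc, Fin.snoc_castSucc, Fin.snoc_castSucc,
            Pi.zero_apply, add_zero] }
  have hind : ∀ a b a' b', (f.comp e₁) a + (f.comp e₂) b = (f.comp e₁) a' + (f.comp e₂) b' →
      a = a' ∧ b = b' := by
    intro a b a' b' hh
    have h1 : e₁ a + e₂ b = e₁ a' + e₂ b' := by
      apply hf
      rw [map_add, map_add]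
      exact hh
    constructor
    · funext i
      have h2 := congrFun h1 (Fin.castSucc i)
      change (Fin.snoc (α := fun _ => ℤ × ℤ) a 0 : Fin (N + 1 + 1) → ℤ × ℤ) (Fin.castSucc i) +
        (Fin.snoc (α := fun _ => ℤ × ℤ) 0 b : Fin (N + 1 + 1) → ℤ × ℤ) (Fin.castSucc i) =
        (Fin.snoc (α := fun _ => ℤ × ℤ) a' 0 : Fin (N + 1 + 1) → ℤ × ℤ) (Fin.castSucc i) +
        (Fin.snoc (α := fun _ => ℤ × ℤ) 0 b' : Fin (N + 1 + 1) → ℤ × ℤ) (Fin.castSucc i) at h2
      rw [Fin.snoc_castSucc, Fin.snoc_castSucc, Fin.snoc_castSucc, Fin.snoc_castSucc,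
        Pi.zero_apply, add_zero, add_zero] at h2
      exact h2
    · have h2 := congrFun h1 (Fin.last (N + 1))
      change (Fin.snoc (α := fun _ => ℤ × ℤ) a 0 : Fin (N + 1 + 1) → ℤ × ℤ) (Fin.last (N + 1)) +
        (Fin.snoc (α := fun _ => ℤ × ℤ) 0 b : Fin (N + 1 + 1) → ℤ × ℤ) (Fin.last (N + 1)) =
        (Fin.snoc (α := fun _ => ℤ × ℤ) a' 0 : Fin (N + 1 + 1) → ℤ × ℤ) (Fin.last (N + 1)) +
        (Fin.snoc (α := fun _ => ℤ × ℤ) 0 b' : Fin (N + 1 + 1) → ℤ × ℤ) (Fin.last (N + 1)) at h2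
      rw [Fin.snoc_last, Fin.snoc_last, Fin.snoc_last, Fin.snoc_last, zero_add, zero_add] at h2
      exact h2
  obtain ⟨w, h, G⟩ := exists_glue (f.comp e₁) (f.comp e₂) hind w₁ wt h₁ hfun p₁ wt_pt o₁
    (by decide)
  refine ⟨w, h, ?_, ?_, G.pt, ⟨f.comp e₁ d, ?_⟩⟩
  · have h1 : 2 ^ (N + 1) + 2 ^ (N + 1) = 2 ^ (N + 1 + 1) := by ring
    rw [← h1]
    exact (Rep.glue G H₁ (rep_disc k)).congr (doubleEquiv k _)
  · have h1 := G.v₁ 0
    rw [map_zero] at h1
    rw [h1, o₁]
  · rw [G.v₁, hd]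

theorem stm (k : Type u) [Field k] (N : ℕ) : Stm k N := by
  induction N with
  | zero => exact stm_zero k
  | succ N ih => exact stm_succ k N ih

lemma not_connected (k : Type u) [Field k] (M : ℕ) (hM : 2 ≤ M) :
    ¬ ConnectedSpace (PrimeSpectrum (Fin M → k)) := by
  intro hc
  let i : Fin M := ⟨0, by omega⟩
  let j : Fin M := ⟨1, by omega⟩
  have hij : j ≠ i := by
    intro hh
    have h1 : (1 : ℕ) = 0 := congrArg Fin.val hh
    exact absurd h1 (by decide)
  let e : Fin M → k := Pi.single i 1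
  have h1 : IsClopen (PrimeSpectrum.basicOpen e : Set (PrimeSpectrum (Fin M → k))) := by
    apply PrimeSpectrum.isClopen_basicOpen_of_mul_add e (1 - e)
    · funext l
      by_cases hl : l = i
      · subst hl
        simp [e]
      · simp [e, hl]
    · funext l
      simp
  rcases isClopen_iff.1 h1 with h2 | h2
  · have h3 : PrimeSpectrum.comap (Pi.evalRingHom (fun _ : Fin M => k) i) ⊥ ∈
        (PrimeSpectrum.basicOpen e : Set (PrimeSpectrum (Fin M → k))) := by
      intro h4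
      have h5 : (Pi.single i 1 : Fin M → k) i = 0 := h4
      rw [Pi.single_eq_same] at h5
      exact one_ne_zero h5
    rw [h2] at h3
    exact h3
  · have h3 : PrimeSpectrum.comap (Pi.evalRingHom (fun _ : Fin M => k) j) ⊥ ∈
        (PrimeSpectrum.basicOpen e : Set (PrimeSpectrum (Fin M → k))) := by
      rw [h2]
      trivial
    apply h3
    change e j = 0
    exact Pi.single_eq_of_ne hij 1

theorem many (k : Type u) [Field k] (N n : ℕ) (hN : 1 ≤ N) (hn : 3 * N ≤ n) (B : Type)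
    [AddCommGroup B] (f : (Fin N → ℤ × ℤ) →+ B) (hf : Function.Injective f) :
    ∃ (w : Fin n → B) (h : B → ℕ), Rep k w h (Fin (2 ^ N) → k) := by
  obtain ⟨M, rfl⟩ : ∃ M, N = M + 1 := ⟨N - 1, by omega⟩
  obtain ⟨w, h, H, -, -, d, hd⟩ := stm k M B f hf
  obtain ⟨w', h', E⟩ := exists_ext hn (AddMonoidHom.id B) Function.injective_id w h d hd
  exact ⟨w', h', H.ext E⟩

end Pool.Agent.Y88.MH
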