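import Pool.Agent.Y88.MH.Rep

/-!
# Glueing two graded polynomial rings: the product of multigraded Hilbert schemes
-/

set_option autoImplicit false

open MvPolynomial TensorProduct

universe u

namespace Pool.Agent.Y88.MH

open Pool.Agent.Results.MP_411355_ag.Disconnected CategoryTheory AlgebraicGeometry

section One

variable {A B : Type} [AddCommGroup A] [AddCommGroup B] {m n : ℕ}

/-- a part of the variables and of the grading group -/
structure Part (g : Fin m → Fin n) (f : A →+ B) (w : Fin m → A) (w' : Fin n → B) : Prop where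
  g_inj : Function.Injective g
  f_inj : Function.Injective f
  wt : ∀ i, w' (g i) = f (w i)
  pt : ∀ u : Fin m →₀ ℕ, Finsupp.weight w u = 0 → u = 0

variable {g : Fin m → Fin n} {f : A →+ B} {w : Fin m → A} {w' : Fin n → B}
  {T : Type u} [CommRing T]

/-- killing the other variables -/
noncomputable abbrev Part.kill (S : Part g f w w') (T : Type u) [CommRing T] :
    MvPolynomial (Fin n) T →ₐ[T] MvPolynomial (Fin m) T := killCompl S.g_inj

lemma Part.weight_mapDomain (S : Part g f w w') (v : Fin m →₀ ℕ) :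
    Finsupp.weight w' (v.mapDomain g) = f (Finsupp.weight w v) := by
  rw [Finsupp.weight_apply, Finsupp.weight_apply, Finsupp.sum_mapDomain_index, map_finsuppSum]
  · apply Finsupp.sum_congr
    intro i _
    rw [S.wt, map_nsmul]
  · intro b
    rw [zero_smul]
  · intro b c d
    rw [add_smul]

lemma Part.kill_whc (S : Part g f w w') (F : MvPolynomial (Fin n) T) (a : A) :
    S.kill T (weightedHomogeneousComponent w' (f a) F) =
      weightedHomogeneousComponent w a (S.kill T F) := by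
  classical
  ext v
  rw [coeff_killCompl, coeff_weightedHomogeneousComponent, coeff_weightedHomogeneousComponent,
    coeff_killCompl, S.weight_mapDomain]
  by_cases hv : Finsupp.weight w v = a
  · rw [if_pos hv, if_pos (congrArg f hv)]
  · rw [if_neg hv, if_neg (fun hh => hv (S.f_inj hh))]

lemma Part.kill_out (S : Part g f w w') {F : MvPolynomial (Fin n) T} {b : B}
    (hF : F ∈ weightedHomogeneousSubmodule T w' b) (hb : b ∉ Set.range f) :
    S.kill T F = 0 := by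
  ext v
  rw [coeff_killCompl, coeff_zero]
  by_contra hv
  have h1 := hF hv
  rw [S.weight_mapDomain] at h1
  exact hb ⟨_, h1⟩

lemma Part.kill_mem (S : Part g f w w') {F : MvPolynomial (Fin n) T} {a : A}
    (hF : F ∈ weightedHomogeneousSubmodule T w' (f a)) :
    S.kill T F ∈ weightedHomogeneousSubmodule T w a := by
  intro v hv
  rw [coeff_killCompl] at hv
  have h1 := hF hv
  rw [S.weight_mapDomain] at h1
  exact S.f_inj h1

lemma Part.rename_mem (S : Part g f w w') {G : MvPolynomial (Fin m) T} {a : A}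
    (hG : G ∈ weightedHomogeneousSubmodule T w a) :
    rename g G ∈ weightedHomogeneousSubmodule T w' (f a) := by
  intro u hu
  obtain ⟨v, rfl, hv⟩ := coeff_rename_ne_zero g G u hu
  rw [S.weight_mapDomain, hG hv]

lemma Part.rename_whc (S : Part g f w w') (G : MvPolynomial (Fin m) T) (a : A) :
    rename g (weightedHomogeneousComponent w a G) =
      weightedHomogeneousComponent w' (f a) (rename g G) := by
  classical
  ext u
  rw [coeff_weightedHomogeneousComponent]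
  by_cases hu : ∃ v : Fin m →₀ ℕ, v.mapDomain g = u
  · obtain ⟨v, rfl⟩ := hu
    rw [coeff_rename_mapDomain g S.g_inj, coeff_rename_mapDomain g S.g_inj,
      coeff_weightedHomogeneousComponent, S.weight_mapDomain]
    by_cases hv : Finsupp.weight w v = a
    · rw [if_pos hv, if_pos (congrArg f hv)]
    · rw [if_neg hv, if_neg (fun hh => hv (S.f_inj hh))]
  · rw [coeff_rename_eq_zero g _ u (fun v hv => absurd ⟨v, hv⟩ hu),
      coeff_rename_eq_zero g _ u (fun v hv => absurd ⟨v, hv⟩ hu), ite_self]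

/-- a homogeneous ideal of rank one in degree zero contains no constants -/
lemma const_zero {h : A → ℕ} {I : Ideal (MvPolynomial (Fin m) T)} (hI : I ∈ hilb w h T)
    (h0 : h 0 = 1) (c : T) (hc : C c ∈ I) : c = 0 := by
  have h1 := hI.2 0
  rw [h0] at h1
  apply h1.faithful
  intro x
  obtain ⟨⟨F, hF⟩, rfl⟩ := Submodule.mkQ_surjective _ x
  rw [← map_smul, Submodule.mkQ_apply, Submodule.Quotient.mk_eq_zero]
  change c • F ∈ I
  rw [smul_eq_C_mul]
  exact I.mul_mem_right _ hc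

lemma coeff_zero_of_mem (hpt : ∀ u : Fin m →₀ ℕ, Finsupp.weight w u = 0 → u = 0) {h : A → ℕ}
    {I : Ideal (MvPolynomial (Fin m) T)} (hI : I ∈ hilb w h T)
    (h0 : h 0 = 1) {G : MvPolynomial (Fin m) T} (hG : G ∈ I) : coeff 0 G = 0 := by
  classical
  apply const_zero hI h0
  have h1 := hI.1 G hG 0
  have h2 : weightedHomogeneousComponent w 0 G = C (coeff 0 G) := by
    ext u
    rw [coeff_weightedHomogeneousComponent, coeff_C]
    by_cases hu : u = 0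
    · subst hu
      rw [if_pos (map_zero _), if_pos rfl]
    · rw [if_neg (fun hh => hu (hpt u hh)), if_neg (fun hh => hu hh.symm)]
  rwa [h2] at h1

lemma mem_of_components {I : Ideal (MvPolynomial (Fin m) T)} (F : MvPolynomial (Fin m) T)
    (hF : ∀ a, weightedHomogeneousComponent w a F ∈ I) : F ∈ I := by
  rw [← sum_weightedHomogeneousComponent w F]
  exact finsum_induction (p := fun G => G ∈ I) I.zero_mem (fun x y hx hy => I.add_mem hx hy) hF

end One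

section Two

variable {A A₁ A₂ : Type} [AddCommGroup A] [AddCommGroup A₁] [AddCommGroup A₂] {m₁ m₂ n : ℕ}
  {g₁ : Fin m₁ → Fin n} {g₂ : Fin m₂ → Fin n} {f₁ : A₁ →+ A} {f₂ : A₂ →+ A} {w₁ : Fin m₁ → A₁}
  {w₂ : Fin m₂ → A₂} {h₁ : A₁ → ℕ} {h₂ : A₂ → ℕ} {w : Fin n → A} {h : A → ℕ}

/-- two complementary parts -/
structure Glue (g₁ : Fin m₁ → Fin n) (g₂ : Fin m₂ → Fin n) (f₁ : A₁ →+ A) (f₂ : A₂ →+ A)
    (w₁ : Fin m₁ → A₁) (w₂ : Fin m₂ → A₂) (h₁ : A₁ → ℕ) (h₂ : A₂ → ℕ) (w : Fin n → A)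
    (h : A → ℕ) : Prop where
  fst : Part g₁ f₁ w₁ w
  snd : Part g₂ f₂ w₂ w
  disj : ∀ i j, g₁ i ≠ g₂ j
  cov : ∀ l, (∃ i, g₁ i = l) ∨ ∃ j, g₂ j = l
  ind : ∀ a b a' b', f₁ a + f₂ b = f₁ a' + f₂ b' → a = a' ∧ b = b'
  one₁ : h₁ 0 = 1
  one₂ : h₂ 0 = 1
  v₁ : ∀ a, h (f₁ a) = h₁ a
  v₂ : ∀ b, h (f₂ b) = h₂ b
  v₀ : ∀ c, c ∉ Set.range f₁ → c ∉ Set.range f₂ → h c = 0

lemma Glue.symm (G : Glue g₁ g₂ f₁ f₂ w₁ w₂ h₁ h₂ w h) : Glue g₂ g₁ f₂ f₁ w₂ w₁ h₂ h₁ w h where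
  fst := G.snd
  snd := G.fst
  disj := fun i j hh => G.disj j i hh.symm
  cov := fun l => (G.cov l).symm
  ind := fun a b a' b' hh => (G.ind b a b' a' (by rw [add_comm, hh, add_comm])).symm
  one₁ := G.one₂
  one₂ := G.one₁
  v₁ := G.v₂
  v₂ := G.v₁
  v₀ := fun c h1 h2 => G.v₀ c h2 h1

variable {T : Type u} [CommRing T]

lemma Glue.decomp (G : Glue g₁ g₂ f₁ f₂ w₁ w₂ h₁ h₂ w h) (u : Fin n →₀ ℕ) :
    u = (u.comapDomain g₁ G.fst.g_inj.injOn).mapDomain g₁ +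
      (u.comapDomain g₂ G.snd.g_inj.injOn).mapDomain g₂ := by
  ext l
  rw [Finsupp.add_apply]
  rcases G.cov l with ⟨i, rfl⟩ | ⟨j, rfl⟩
  · rw [Finsupp.mapDomain_apply G.fst.g_inj, Finsupp.mapDomain_of_notMem_range _ _
      (by rintro ⟨j, hj⟩; exact G.disj i j hj.symm), add_zero, Finsupp.comapDomain_apply]
  · rw [Finsupp.mapDomain_apply G.snd.g_inj, Finsupp.mapDomain_of_notMem_range _ _
      (by rintro ⟨i, hi⟩; exact G.disj i j hi), zero_add, Finsupp.comapDomain_apply]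

/-- a homogeneous polynomial with degree in the first group involves only the first variables -/
lemma Glue.rename_kill (G : Glue g₁ g₂ f₁ f₂ w₁ w₂ h₁ h₂ w h) {F : MvPolynomial (Fin n) T}
    {a : A₁} (hF : F ∈ weightedHomogeneousSubmodule T w (f₁ a)) :
    rename g₁ (G.fst.kill T F) = F := by
  ext u
  by_cases hu : ∃ v : Fin m₁ →₀ ℕ, v.mapDomain g₁ = u
  · obtain ⟨v, rfl⟩ := hu
    rw [coeff_rename_mapDomain g₁ G.fst.g_inj, coeff_killCompl]
  · rw [coeff_rename_eq_zero g₁ _ u (fun v hv => absurd ⟨v, hv⟩ hu)]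
    by_contra hne
    have h1 := hF (Ne.symm hne)
    rw [G.decomp u, map_add, G.fst.weight_mapDomain, G.snd.weight_mapDomain] at h1
    have h2 := (G.ind _ _ a 0 (by rw [h1, map_zero, add_zero])).2
    have h3 := G.snd.pt _ h2
    apply hu
    refine ⟨u.comapDomain g₁ G.fst.g_inj.injOn, ?_⟩
    have h4 := G.decomp u
    rw [h3, Finsupp.mapDomain_zero, add_zero] at h4
    exact h4.symm

lemma Glue.mapDomain_eq (G : Glue g₁ g₂ f₁ f₂ w₁ w₂ h₁ h₂ w h) {v : Fin m₁ →₀ ℕ}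
    {v' : Fin m₂ →₀ ℕ} (hv : v.mapDomain g₁ = v'.mapDomain g₂) : v = 0 ∧ v' = 0 := by
  have h1 := congrArg (Finsupp.weight w) hv
  rw [G.fst.weight_mapDomain, G.snd.weight_mapDomain] at h1
  have h2 := G.ind (Finsupp.weight w₁ v) 0 0 (Finsupp.weight w₂ v')
    (by rw [h1, map_zero, map_zero, add_zero, zero_add])
  exact ⟨G.fst.pt _ h2.1, G.snd.pt _ h2.2.symm⟩

lemma Glue.kill_rename (G : Glue g₁ g₂ f₁ f₂ w₁ w₂ h₁ h₂ w h) {P : MvPolynomial (Fin m₁) T}
    (hP : coeff 0 P = 0) : G.snd.kill T (rename g₁ P) = 0 := by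
  ext v
  rw [coeff_killCompl, coeff_zero]
  apply coeff_rename_eq_zero
  intro u hu
  obtain ⟨rfl, -⟩ := G.mapDomain_eq hu
  exact hP

/-- the glued ideal -/
noncomputable def Glue.ideal (G : Glue g₁ g₂ f₁ f₂ w₁ w₂ h₁ h₂ w h)
    (I₁ : Ideal (MvPolynomial (Fin m₁) T)) (I₂ : Ideal (MvPolynomial (Fin m₂) T)) :
    Ideal (MvPolynomial (Fin n) T) :=
  I₁.comap (G.fst.kill T) ⊓ I₂.comap (G.snd.kill T)

lemma Glue.mem_ideal (G : Glue g₁ g₂ f₁ f₂ w₁ w₂ h₁ h₂ w h)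
    (I₁ : Ideal (MvPolynomial (Fin m₁) T)) (I₂ : Ideal (MvPolynomial (Fin m₂) T))
    (F : MvPolynomial (Fin n) T) :
    F ∈ G.ideal I₁ I₂ ↔ G.fst.kill T F ∈ I₁ ∧ G.snd.kill T F ∈ I₂ := Iff.rfl

lemma Glue.ideal_symm (G : Glue g₁ g₂ f₁ f₂ w₁ w₂ h₁ h₂ w h)
    (I₁ : Ideal (MvPolynomial (Fin m₁) T)) (I₂ : Ideal (MvPolynomial (Fin m₂) T)) :
    G.symm.ideal I₂ I₁ = G.ideal I₁ I₂ := inf_comm _ _

/-- the second condition is automatic in degrees of the first group -/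
lemma Glue.snd_auto (G : Glue g₁ g₂ f₁ f₂ w₁ w₂ h₁ h₂ w h)
    {I₁ : Ideal (MvPolynomial (Fin m₁) T)} {I₂ : Ideal (MvPolynomial (Fin m₂) T)}
    (hI₁ : I₁ ∈ hilb w₁ h₁ T) {F : MvPolynomial (Fin n) T} {a : A₁}
    (hF : F ∈ weightedHomogeneousSubmodule T w (f₁ a)) (h1 : G.fst.kill T F ∈ I₁) :
    G.snd.kill T F ∈ I₂ := by
  have h2 := coeff_zero_of_mem G.fst.pt hI₁ G.one₁ h1
  rw [← G.rename_kill hF, G.kill_rename h2]
  exact I₂.zero_mem

lemma Glue.gp (G : Glue g₁ g₂ f₁ f₂ w₁ w₂ h₁ h₂ w h)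
    {I₁ : Ideal (MvPolynomial (Fin m₁) T)} (I₂ : Ideal (MvPolynomial (Fin m₂) T))
    (hI₁ : I₁ ∈ hilb w₁ h₁ T) (a : A₁) :
    LocallyFreeOfRank T (GradedPiece w (G.ideal I₁ I₂) (f₁ a)) (h (f₁ a)) := by
  let p : weightedHomogeneousSubmodule T w (f₁ a) →ₗ[T] weightedHomogeneousSubmodule T w₁ a :=
    LinearMap.codRestrict _ ((G.fst.kill T).toLinearMap ∘ₗ
      (weightedHomogeneousSubmodule T w (f₁ a)).subtype) (fun F => G.fst.kill_mem F.2)
  let q : weightedHomogeneousSubmodule T w (f₁ a) →ₗ[T] GradedPiece w₁ I₁ a :=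
    Submodule.mkQ _ ∘ₗ p
  have hker : LinearMap.ker q = ((G.ideal I₁ I₂).restrictScalars T).comap
        (weightedHomogeneousSubmodule T w (f₁ a)).subtype := by
    ext ⟨F, hF⟩
    rw [LinearMap.mem_ker]
    change (Submodule.Quotient.mk (p ⟨F, hF⟩) : GradedPiece w₁ I₁ a) = 0 ↔ F ∈ G.ideal I₁ I₂
    rw [Submodule.Quotient.mk_eq_zero, G.mem_ideal]
    change G.fst.kill T F ∈ I₁ ↔ _
    exact ⟨fun h1 => ⟨h1, G.snd_auto hI₁ hF h1⟩, fun h1 => h1.1⟩
  have hsurj : Function.Surjective q := by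
    intro y
    obtain ⟨⟨P, hP⟩, rfl⟩ := Submodule.mkQ_surjective _ y
    refine ⟨⟨rename g₁ P, G.fst.rename_mem hP⟩, ?_⟩
    change Submodule.mkQ _ (p _) = _
    congr 1
    apply Subtype.ext
    exact killCompl_rename_app G.fst.g_inj P
  have e := q.quotKerEquivOfSurjective hsurj
  rw [hker] at e
  rw [G.v₁]
  exact (hI₁.2 a).congr e.symm

lemma Glue.whc_mem (G : Glue g₁ g₂ f₁ f₂ w₁ w₂ h₁ h₂ w h)
    {I₁ : Ideal (MvPolynomial (Fin m₁) T)}
    (hI₁ : I₁ ∈ hilb w₁ h₁ T) (F : MvPolynomial (Fin n) T)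
    (hF : G.fst.kill T F ∈ I₁) (c : A) :
    G.fst.kill T (weightedHomogeneousComponent w c F) ∈ I₁ := by
  by_cases hc : c ∈ Set.range f₁
  · obtain ⟨a, rfl⟩ := hc
    rw [G.fst.kill_whc]
    exact hI₁.1 _ hF a
  · rw [G.fst.kill_out (weightedHomogeneousComponent_isWeightedHomogeneous c F) hc]
    exact I₁.zero_mem

lemma Glue.ideal_mem (G : Glue g₁ g₂ f₁ f₂ w₁ w₂ h₁ h₂ w h)
    {I₁ : Ideal (MvPolynomial (Fin m₁) T)} {I₂ : Ideal (MvPolynomial (Fin m₂) T)}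
    (hI₁ : I₁ ∈ hilb w₁ h₁ T) (hI₂ : I₂ ∈ hilb w₂ h₂ T) : G.ideal I₁ I₂ ∈ hilb w h T := by
  refine ⟨?_, ?_⟩
  · intro F hF c
    rw [G.mem_ideal] at hF ⊢
    exact ⟨G.whc_mem hI₁ F hF.1 c, G.symm.whc_mem hI₂ F hF.2 c⟩
  · intro c
    by_cases hc : c ∈ Set.range f₁
    · obtain ⟨a, rfl⟩ := hc
      exact G.gp I₂ hI₁ a
    by_cases hc' : c ∈ Set.range f₂
    · obtain ⟨b, rfl⟩ := hc'
      have h1 := G.symm.gp I₁ hI₂ b
      rwa [G.ideal_symm] at h1
    rw [G.v₀ c hc hc']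
    have hs : Subsingleton (GradedPiece w (G.ideal I₁ I₂) c) := by
      constructor
      have h0 : ∀ x : GradedPiece w (G.ideal I₁ I₂) c, x = 0 := by
        intro x
        obtain ⟨⟨F, hF⟩, rfl⟩ := Submodule.mkQ_surjective _ x
        rw [Submodule.mkQ_apply, Submodule.Quotient.mk_eq_zero]
        change F ∈ G.ideal I₁ I₂
        rw [G.mem_ideal, G.fst.kill_out hF hc, G.snd.kill_out hF hc']
        exact ⟨I₁.zero_mem, I₂.zero_mem⟩
      intro x y
      rw [h0 x, h0 y]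
    exact (LocallyFreeOfRank.pi 0).congr (0 : (Fin 0 → T) ≃ₗ[T] _)

/-- the first part of an ideal -/
lemma Glue.comap_mem (G : Glue g₁ g₂ f₁ f₂ w₁ w₂ h₁ h₂ w h) {I : Ideal (MvPolynomial (Fin n) T)}
    (hI : I ∈ hilb w h T) :
    I.comap (rename g₁ : MvPolynomial (Fin m₁) T →ₐ[T] MvPolynomial (Fin n) T) ∈
      hilb w₁ h₁ T := by
  refine ⟨?_, ?_⟩
  · intro P hP a
    change rename g₁ (weightedHomogeneousComponent w₁ a P) ∈ I
    rw [G.fst.rename_whc]
    exact hI.1 _ hP _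
  · intro a
    let p : weightedHomogeneousSubmodule T w₁ a →ₗ[T] weightedHomogeneousSubmodule T w (f₁ a) :=
      LinearMap.codRestrict _ ((rename g₁ : MvPolynomial (Fin m₁) T →ₐ[T]
        MvPolynomial (Fin n) T).toLinearMap ∘ₗ
        (weightedHomogeneousSubmodule T w₁ a).subtype) (fun F => G.fst.rename_mem F.2)
    let q : weightedHomogeneousSubmodule T w₁ a →ₗ[T] GradedPiece w I (f₁ a) :=
      Submodule.mkQ _ ∘ₗ p
    have hker : LinearMap.ker q = ((I.comap (rename g₁ : MvPolynomial (Fin m₁) T →ₐ[T]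
        MvPolynomial (Fin n) T)).restrictScalars T).comap
          (weightedHomogeneousSubmodule T w₁ a).subtype := by
      ext ⟨F, hF⟩
      rw [LinearMap.mem_ker]
      change (Submodule.Quotient.mk (p ⟨F, hF⟩) : GradedPiece w I (f₁ a)) = 0 ↔ _
      rw [Submodule.Quotient.mk_eq_zero]
      rfl
    have hsurj : Function.Surjective q := by
      intro y
      obtain ⟨⟨F, hF⟩, rfl⟩ := Submodule.mkQ_surjective _ y
      refine ⟨⟨G.fst.kill T F, G.fst.kill_mem hF⟩, ?_⟩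
      change Submodule.mkQ _ (p _) = _
      congr 1
      apply Subtype.ext
      exact G.rename_kill hF
    have e := q.quotKerEquivOfSurjective hsurj
    rw [hker] at e
    have h1 := hI.2 (f₁ a)
    rw [G.v₁] at h1
    exact h1.congr e.symm

lemma Glue.rename_kill_mem (G : Glue g₁ g₂ f₁ f₂ w₁ w₂ h₁ h₂ w h)
    {I : Ideal (MvPolynomial (Fin n) T)} (hI : I ∈ hilb w h T) {F : MvPolynomial (Fin n) T}
    (hF : F ∈ I) : rename g₁ (G.fst.kill T F) ∈ I := by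
  change G.fst.kill T F ∈ I.comap (rename g₁ : MvPolynomial (Fin m₁) T →ₐ[T]
    MvPolynomial (Fin n) T)
  apply mem_of_components (w := w₁)
  intro a
  change rename g₁ (weightedHomogeneousComponent w₁ a (G.fst.kill T F)) ∈ I
  rw [← G.fst.kill_whc, G.rename_kill (weightedHomogeneousComponent_isWeightedHomogeneous _ F)]
  exact hI.1 F hF _

lemma Glue.whc_mem' (G : Glue g₁ g₂ f₁ f₂ w₁ w₂ h₁ h₂ w h)
    {I : Ideal (MvPolynomial (Fin n) T)} (hI : I ∈ hilb w h T) {F : MvPolynomial (Fin n) T}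
    (hF : rename g₁ (G.fst.kill T F) ∈ I) (a : A₁) :
    weightedHomogeneousComponent w (f₁ a) F ∈ I := by
  rw [← G.rename_kill (weightedHomogeneousComponent_isWeightedHomogeneous (f₁ a) F),
    G.fst.kill_whc, G.fst.rename_whc]
  exact hI.1 _ hF _

lemma Glue.ideal_comap (G : Glue g₁ g₂ f₁ f₂ w₁ w₂ h₁ h₂ w h)
    {I : Ideal (MvPolynomial (Fin n) T)} (hI : I ∈ hilb w h T) :
    G.ideal (I.comap (rename g₁ : MvPolynomial (Fin m₁) T →ₐ[T] MvPolynomial (Fin n) T))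
      (I.comap (rename g₂ : MvPolynomial (Fin m₂) T →ₐ[T] MvPolynomial (Fin n) T)) = I := by
  ext F
  rw [G.mem_ideal]
  change rename g₁ (G.fst.kill T F) ∈ I ∧ rename g₂ (G.snd.kill T F) ∈ I ↔ F ∈ I
  constructor
  · rintro ⟨h1, h2⟩
    apply mem_of_components (w := w)
    intro c
    by_cases hc : c ∈ Set.range f₁
    · obtain ⟨a, rfl⟩ := hc
      exact G.whc_mem' hI h1 a
    by_cases hc' : c ∈ Set.range f₂
    · obtain ⟨b, rfl⟩ := hc'
      exact G.symm.whc_mem' hI h2 b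
    exact mem_of_degree_zero hI (G.v₀ c hc hc')
      (weightedHomogeneousComponent_isWeightedHomogeneous c F)
  · intro hF
    exact ⟨G.rename_kill_mem hI hF, G.symm.rename_kill_mem hI hF⟩

lemma Glue.rename_mem_ideal (G : Glue g₁ g₂ f₁ f₂ w₁ w₂ h₁ h₂ w h)
    {I₁ : Ideal (MvPolynomial (Fin m₁) T)} (I₂ : Ideal (MvPolynomial (Fin m₂) T))
    (hI₁ : I₁ ∈ hilb w₁ h₁ T) (P : MvPolynomial (Fin m₁) T) :
    P ∈ I₁ ↔ rename g₁ P ∈ G.ideal I₁ I₂ := by
  rw [G.mem_ideal, killCompl_rename_app]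
  constructor
  · intro h1
    refine ⟨h1, ?_⟩
    rw [G.kill_rename (coeff_zero_of_mem G.fst.pt hI₁ G.one₁ h1)]
    exact I₂.zero_mem
  · exact fun h1 => h1.1

lemma Glue.ideal_inj (G : Glue g₁ g₂ f₁ f₂ w₁ w₂ h₁ h₂ w h)
    {I₁ I₁' : Ideal (MvPolynomial (Fin m₁) T)} {I₂ I₂' : Ideal (MvPolynomial (Fin m₂) T)}
    (hI₁ : I₁ ∈ hilb w₁ h₁ T) (hI₁' : I₁' ∈ hilb w₁ h₁ T)
    (hh : G.ideal I₁ I₂ = G.ideal I₁' I₂') : I₁ = I₁' := by
  ext P
  rw [G.rename_mem_ideal I₂ hI₁, G.rename_mem_ideal I₂' hI₁', hh]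

/-- the glued Hilbert functor is the product -/
noncomputable def Glue.equiv (G : Glue g₁ g₂ f₁ f₂ w₁ w₂ h₁ h₂ w h) (T : Type u) [CommRing T] :
    (hilb w₁ h₁ T × hilb w₂ h₂ T) ≃ hilb w h T :=
  Equiv.ofBijective (fun J => ⟨G.ideal J.1.1 J.2.1, G.ideal_mem J.1.2 J.2.2⟩) (by
    constructor
    · rintro ⟨⟨I₁, hI₁⟩, ⟨I₂, hI₂⟩⟩ ⟨⟨I₁', hI₁'⟩, ⟨I₂', hI₂'⟩⟩ hJ
      have h1 : G.ideal I₁ I₂ = G.ideal I₁' I₂' := congrArg Subtype.val hJ
      have h2 := G.ideal_inj hI₁ hI₁' h1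
      have h3 := G.symm.ideal_inj hI₂ hI₂' (by rw [G.ideal_symm, G.ideal_symm, h1])
      subst h2 h3
      rfl
    · rintro ⟨I, hI⟩
      exact ⟨⟨⟨_, G.comap_mem hI⟩, ⟨_, G.symm.comap_mem hI⟩⟩, Subtype.ext (G.ideal_comap hI)⟩)

end Two

end Pool.Agent.Y88.MH
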