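import Pool.Agent.Y88.MH.Glue

/-!
# Glueing: naturality and the representing ring
-/

set_option autoImplicit false

open MvPolynomial TensorProduct

universe u

namespace Pool.Agent.Y88.MH

open Pool.Agent.Results.MP_411355_ag.Disconnected CategoryTheory AlgebraicGeometry

variable {A A₁ A₂ : Type} [AddCommGroup A] [AddCommGroup A₁] [AddCommGroup A₂] {m₁ m₂ n : ℕ}
  {g₁ : Fin m₁ → Fin n} {g₂ : Fin m₂ → Fin n} {f₁ : A₁ →+ A} {f₂ : A₂ →+ A} {w₁ : Fin m₁ → A₁}
  {w₂ : Fin m₂ → A₂} {h₁ : A₁ → ℕ} {h₂ : A₂ → ℕ} {w : Fin n → A} {h : A → ℕ}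

variable {T : Type u} [CommRing T]

lemma Glue.mixed_monomial (G : Glue g₁ g₂ f₁ f₂ w₁ w₂ h₁ h₂ w h)
    (K : Ideal (MvPolynomial (Fin n) T))
    (hK : ∀ i j, (X (g₁ i) : MvPolynomial (Fin n) T) * X (g₂ j) ∈ K) (u : Fin n →₀ ℕ) (t : T) :
    monomial u t - rename g₁ (G.fst.kill T (monomial u t)) -
      rename g₂ (G.snd.kill T (monomial u t)) + C (coeff 0 (monomial u t)) ∈ K := by
  classical
  by_cases hu1 : ∃ i, u (g₁ i) ≠ 0
  · obtain ⟨i, hi⟩ := hu1
    have e2 : G.snd.kill T (monomial u t) = 0 :=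
      killCompl_monomial_eq_zero_of_notMem_range G.snd.g_inj t (Finsupp.mem_support_iff.2 hi)
        (by rintro ⟨j, hj⟩; exact G.disj i j hj.symm)
    have e3 : coeff 0 (monomial u t) = 0 := by
      rw [coeff_monomial, if_neg]
      rintro rfl
      exact hi rfl
    by_cases hu2 : ∃ j, u (g₂ j) ≠ 0
    · obtain ⟨j, hj⟩ := hu2
      have e1 : G.fst.kill T (monomial u t) = 0 :=
        killCompl_monomial_eq_zero_of_notMem_range G.fst.g_inj t (Finsupp.mem_support_iff.2 hj)
          (by rintro ⟨i', hi'⟩; exact G.disj i' j hi')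
      rw [e1, e2, e3, map_zero, map_zero, map_zero, sub_zero, sub_zero, add_zero]
      have hne : g₁ i ≠ g₂ j := G.disj i j
      have hle : Finsupp.single (g₁ i) 1 + Finsupp.single (g₂ j) 1 ≤ u := by
        intro l
        rw [Finsupp.add_apply, Finsupp.single_apply, Finsupp.single_apply]
        by_cases h1 : g₁ i = l
        · subst h1
          rw [if_pos rfl, if_neg (fun hh => hne hh.symm)]
          omega
        · rw [if_neg h1]
          by_cases h2 : g₂ j = l
          · subst h2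
            rw [if_pos rfl]
            omega
          · rw [if_neg h2]
            omega
      have e4 : monomial u t = ((X (g₁ i) : MvPolynomial (Fin n) T) * X (g₂ j)) *
          monomial (u - (Finsupp.single (g₁ i) 1 + Finsupp.single (g₂ j) 1)) t := by
        rw [X, X, monomial_mul, monomial_mul, one_mul, one_mul, add_tsub_cancel_of_le hle]
      rw [e4]
      exact K.mul_mem_right _ (hK i j)
    · have e0 : u.comapDomain g₂ G.snd.g_inj.injOn = 0 := by
        ext j
        by_contra hj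
        exact hu2 ⟨j, hj⟩
      have e1 := G.decomp u
      rw [e0, Finsupp.mapDomain_zero, add_zero] at e1
      have e4 : rename g₁ (G.fst.kill T (monomial u t)) = monomial u t := by
        rw [e1]
        change rename g₁ (killCompl G.fst.g_inj _) = _
        rw [killCompl_monomial_mapDomain, rename_monomial]
      rw [e2, e3, e4, sub_self, map_zero, map_zero, sub_zero, add_zero]
      exact K.zero_mem
  · have e0 : u.comapDomain g₁ G.fst.g_inj.injOn = 0 := by
      ext i
      by_contra hi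
      exact hu1 ⟨i, hi⟩
    have e1 := G.decomp u
    rw [e0, Finsupp.mapDomain_zero, zero_add] at e1
    have e4 : rename g₂ (G.snd.kill T (monomial u t)) = monomial u t := by
      rw [e1]
      change rename g₂ (killCompl G.snd.g_inj _) = _
      rw [killCompl_monomial_mapDomain, rename_monomial]
    have e5 : rename g₁ (G.fst.kill T (monomial u t)) = C (coeff 0 (monomial u t)) := by
      by_cases hu : u = 0
      · subst hu
        change rename g₁ (killCompl G.fst.g_inj (C t)) = C (coeff 0 (C t))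
        rw [killCompl_C, rename_C, coeff_C, if_pos rfl]
      · have h1 : ∃ l, u l ≠ 0 := by
          by_contra hcon
          push Not at hcon
          exact hu (Finsupp.ext hcon)
        obtain ⟨l, hl⟩ := h1
        have hl2 : l ∉ Set.range g₁ := by
          rintro ⟨i, rfl⟩
          exact hu1 ⟨i, hl⟩
        have e6 : G.fst.kill T (monomial u t) = 0 :=
          killCompl_monomial_eq_zero_of_notMem_range G.fst.g_inj t
            (Finsupp.mem_support_iff.2 hl) hl2
        rw [e6, coeff_monomial, if_neg hu, map_zero, map_zero]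
    rw [e4, e5]
    have e7 : (monomial u t : MvPolynomial (Fin n) T) - C (coeff 0 (monomial u t)) -
        monomial u t + C (coeff 0 (monomial u t)) = 0 := by ring
    rw [e7]
    exact K.zero_mem

lemma Glue.mixed (G : Glue g₁ g₂ f₁ f₂ w₁ w₂ h₁ h₂ w h)
    (K : Ideal (MvPolynomial (Fin n) T))
    (hK : ∀ i j, (X (g₁ i) : MvPolynomial (Fin n) T) * X (g₂ j) ∈ K)
    (F : MvPolynomial (Fin n) T) :
    F - rename g₁ (G.fst.kill T F) - rename g₂ (G.snd.kill T F) + C (coeff 0 F) ∈ K := by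
  refine MvPolynomial.induction_on' F (fun u t => G.mixed_monomial K hK u t) ?_
  intro p q hp hq
  have h1 := K.add_mem hp hq
  have h2 : p + q - rename g₁ (G.fst.kill T (p + q)) - rename g₂ (G.snd.kill T (p + q)) +
      C (coeff 0 (p + q)) =
      (p - rename g₁ (G.fst.kill T p) - rename g₂ (G.snd.kill T p) + C (coeff 0 p)) +
      (q - rename g₁ (G.fst.kill T q) - rename g₂ (G.snd.kill T q) + C (coeff 0 q)) := by
    rw [coeff_add, map_add, map_add, map_add, map_add, map_add]
    ring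
  rw [h2]
  exact h1

lemma Glue.rename_map_mem (G : Glue g₁ g₂ f₁ f₂ w₁ w₂ h₁ h₂ w h) {T' : Type u} [CommRing T']
    (φ : T →+* T') {I₁ : Ideal (MvPolynomial (Fin m₁) T)} (I₂ : Ideal (MvPolynomial (Fin m₂) T))
    (hI₁ : I₁ ∈ hilb w₁ h₁ T) {P : MvPolynomial (Fin m₁) T'}
    (hP : P ∈ I₁.map (MvPolynomial.map φ)) :
    rename g₁ P ∈ (G.ideal I₁ I₂).map (MvPolynomial.map φ) := by
  have h2 : I₁.map (MvPolynomial.map φ) ≤ ((G.ideal I₁ I₂).map (MvPolynomial.map φ)).comap
      (rename g₁ : MvPolynomial (Fin m₁) T' →ₐ[T'] MvPolynomial (Fin n) T') := by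
    rw [Ideal.map_le_iff_le_comap]
    intro p hp
    change rename g₁ (MvPolynomial.map φ p) ∈ (G.ideal I₁ I₂).map (MvPolynomial.map φ)
    rw [← map_rename]
    exact Ideal.mem_map_of_mem _ ((G.rename_mem_ideal I₂ hI₁ p).1 hp)
  exact h2 hP

lemma Glue.ideal_map (G : Glue g₁ g₂ f₁ f₂ w₁ w₂ h₁ h₂ w h) {T' : Type u} [CommRing T']
    (φ : T →+* T') {I₁ : Ideal (MvPolynomial (Fin m₁) T)} {I₂ : Ideal (MvPolynomial (Fin m₂) T)}
    (hI₁ : I₁ ∈ hilb w₁ h₁ T) (hI₂ : I₂ ∈ hilb w₂ h₂ T)
    (hI₁' : I₁.map (MvPolynomial.map φ) ∈ hilb w₁ h₁ T') :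
    G.ideal (I₁.map (MvPolynomial.map φ)) (I₂.map (MvPolynomial.map φ)) =
      (G.ideal I₁ I₂).map (MvPolynomial.map φ) := by
  apply le_antisymm
  · intro F hF
    rw [G.mem_ideal] at hF
    set K := (G.ideal I₁ I₂).map (MvPolynomial.map φ) with hK
    have h1 : rename g₁ (G.fst.kill T' F) ∈ K := G.rename_map_mem φ I₂ hI₁ hF.1
    have h2 : rename g₂ (G.snd.kill T' F) ∈ K := by
      have h3 := G.symm.rename_map_mem φ I₁ hI₂ hF.2
      rwa [G.ideal_symm] at h3
    have h3 : ∀ i j, (X (g₁ i) : MvPolynomial (Fin n) T') * X (g₂ j) ∈ K := by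
      intro i j
      have h4 : (X (g₁ i) : MvPolynomial (Fin n) T) * X (g₂ j) ∈ G.ideal I₁ I₂ := by
        rw [G.mem_ideal]
        have h5 : G.fst.kill T (X (g₂ j)) = 0 := by
          rw [Part.kill, killCompl, aeval_X, dif_neg]
          rintro ⟨i', hi'⟩
          exact G.disj i' j hi'
        have h6 : G.snd.kill T (X (g₁ i)) = 0 := by
          rw [Part.kill, killCompl, aeval_X, dif_neg]
          rintro ⟨j', hj'⟩
          exact G.disj i j' hj'.symm
        rw [map_mul, map_mul, h5, h6, mul_zero, zero_mul]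
        exact ⟨I₁.zero_mem, I₂.zero_mem⟩
      have h5 := Ideal.mem_map_of_mem (MvPolynomial.map φ) h4
      rwa [map_mul, map_X, map_X] at h5
    have h4 : coeff 0 F = 0 := by
      have h5 := coeff_zero_of_mem G.fst.pt hI₁' G.one₁ hF.1
      rwa [coeff_killCompl, Finsupp.mapDomain_zero] at h5
    have h5 := G.mixed K h3 F
    rw [h4, map_zero, add_zero] at h5
    have h6 := K.add_mem (K.add_mem h5 h2) h1
    rwa [sub_add_cancel, sub_add_cancel] at h6
  · rw [Ideal.map_le_iff_le_comap]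
    intro F hF
    change MvPolynomial.map φ F ∈ G.ideal _ _
    rw [G.mem_ideal] at hF ⊢
    rw [Part.kill, Part.kill, killCompl_map, killCompl_map]
    exact ⟨Ideal.mem_map_of_mem _ hF.1, Ideal.mem_map_of_mem _ hF.2⟩

/-- points of a product -/
noncomputable def tensorPoints (k R₁ R₂ T : Type u) [Field k] [CommRing R₁] [Algebra k R₁]
    [CommRing R₂] [Algebra k R₂] [CommRing T] [Algebra k T] :
    (R₁ ⊗[k] R₂ →ₐ[k] T) ≃ (R₁ →ₐ[k] T) × (R₂ →ₐ[k] T) where
  toFun F := (F.comp Algebra.TensorProduct.includeLeft,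
    F.comp Algebra.TensorProduct.includeRight)
  invFun p := Algebra.TensorProduct.productMap p.1 p.2
  left_inv F := by
    apply Algebra.TensorProduct.ext
    · exact Algebra.TensorProduct.productMap_left _ _
    · exact Algebra.TensorProduct.productMap_right _ _
  right_inv p := Prod.ext (Algebra.TensorProduct.productMap_left _ _)
    (Algebra.TensorProduct.productMap_right _ _)

theorem Rep.glue {k : Type u} [Field k] {R₁ R₂ : Type u} [CommRing R₁] [Algebra k R₁]
    [CommRing R₂] [Algebra k R₂] (G : Glue g₁ g₂ f₁ f₂ w₁ w₂ h₁ h₂ w h)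
    (H₁ : Rep k w₁ h₁ R₁) (H₂ : Rep k w₂ h₂ R₂) : Rep k w h (R₁ ⊗[k] R₂) := by
  obtain ⟨Ψ₁, hΨ₁⟩ := H₁
  obtain ⟨Ψ₂, hΨ₂⟩ := H₂
  refine ⟨fun T _ _ => (tensorPoints k R₁ R₂ T).trans
    ((Equiv.prodCongr (Ψ₁ T) (Ψ₂ T)).trans (G.equiv T)), ?_⟩
  intro T T' _ _ _ _ φ F
  change G.ideal (Ψ₁ T' (φ.comp (F.comp Algebra.TensorProduct.includeLeft))).1
    (Ψ₂ T' (φ.comp (F.comp Algebra.TensorProduct.includeRight))).1 =
    Ideal.map _ (G.ideal (Ψ₁ T (F.comp Algebra.TensorProduct.includeLeft)).1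
      (Ψ₂ T (F.comp Algebra.TensorProduct.includeRight)).1)
  have h1 := (Ψ₁ T' (φ.comp (F.comp Algebra.TensorProduct.includeLeft))).2
  rw [hΨ₁ T T' φ] at h1
  rw [hΨ₁ T T' φ, hΨ₂ T T' φ]
  exact G.ideal_map (φ : T →+* T') (Ψ₁ T _).2 (Ψ₂ T _).2 h1

end Pool.Agent.Y88.MH
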