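import Pool.Agent.Y88.MH.Trans

/-!
# Affine multigraded Hilbert schemes
-/

set_option autoImplicit false

open MvPolynomial

universe u

namespace Pool.Agent.Y88.MH

open Pool.Agent.Results.MP_411355_ag.Disconnected CategoryTheory AlgebraicGeometry

variable {A B : Type} [AddCommGroup A] [AddCommGroup B] {m n : ℕ}

/-- the multigraded Hilbert scheme is the spectrum of `R` -/
def Rep (k : Type u) [Field k] (w : Fin m → A) (h : A → ℕ) (R : Type u) [CommRing R]
    [Algebra k R] : Prop :=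
  ∃ Ψ : ∀ (T : Type u) [CommRing T] [Algebra k T], (R →ₐ[k] T) ≃ hilb w h T,
    ∀ (T T' : Type u) [CommRing T] [Algebra k T] [CommRing T'] [Algebra k T']
      (φ : T →ₐ[k] T') (f : R →ₐ[k] T),
      (Ψ T' (φ.comp f)).1 = Ideal.map (MvPolynomial.map (φ : T →+* T')) (Ψ T f).1

variable {g : Fin m → Fin n} {f : A →+ B} {w : Fin m → A} {h : A → ℕ} {w' : Fin n → B}
  {h' : B → ℕ} {k : Type u} [Field k] {R S : Type u} [CommRing R] [Algebra k R] [CommRing S]
  [Algebra k S]

lemma Rep.represents (H : Rep k w h R) : RepresentsHilb k w h (Spec (CommRingCat.of R))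
    (Spec.map (CommRingCat.ofHom (algebraMap k R))) := by
  obtain ⟨Ψ, hΨ⟩ := H
  exact representsHilb_Spec Ψ hΨ

lemma Rep.congr (H : Rep k w h R) (e : R ≃ₐ[k] S) : Rep k w h S := by
  obtain ⟨Ψ, hΨ⟩ := H
  refine ⟨fun T _ _ => (AlgEquiv.arrowCongr e.symm AlgEquiv.refl).trans (Ψ T), ?_⟩
  intro T T' _ _ _ _ φ f
  exact hΨ T T' φ (f.comp (e : R →ₐ[k] S))

lemma Rep.ext (H : Rep k w h R) (E : Ext g f w h w' h') : Rep k w' h' R := by
  obtain ⟨Ψ, hΨ⟩ := H
  refine ⟨fun T _ _ => (Ψ T).trans (hilbEquiv E T), ?_⟩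
  intro T T' _ _ _ _ φ f
  change ((Ψ T' (φ.comp f)).1).comap _ = Ideal.map _ (((Ψ T f).1).comap _)
  rw [hΨ T T' φ f]
  exact comap_map E.g_inj (φ : T →+* T') _

lemma rep_disc (k : Type u) [Field k] : Rep k wt hfun (k × k) := by
  refine ⟨fun T _ _ => (idemEquiv k T).trans (discEquiv T), ?_⟩
  intro T T' _ _ _ _ φ f
  exact (map_discIdeal (φ : T →+* T') (idemEquiv k T f).1 (idemEquiv k T f).2
    (idemEquiv k T' (φ.comp f)).2).symm

lemma exists_ext (hmn : m ≤ n) (f : A →+ B) (hf : Function.Injective f) (w : Fin m → A)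
    (h : A → ℕ) (d : A) (hd : h d = 0) : ∃ w' h', Ext (Fin.castLE hmn) f w h w' h' := by
  classical
  refine ⟨fun j => if hj : j.1 < m then f (w ⟨j.1, hj⟩) else f d,
    fun b => if hb : ∃ a, f a = b then h hb.choose else 0, ?_⟩
  have h1 : ∀ a, (if hb : ∃ a', f a' = f a then h hb.choose else 0) = h a := by
    intro a
    have hb : ∃ a', f a' = f a := ⟨a, rfl⟩
    rw [dif_pos hb]
    congr 1
    exact hf hb.choose_spec
  exact
    { g_inj := Fin.castLE_injective hmn
      f_inj := hf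
      wt := fun i => by
        change (if hj : (Fin.castLE hmn i).1 < m then f (w ⟨(Fin.castLE hmn i).1, hj⟩) else f d) = _
        rw [dif_pos (by exact i.2)]
        rfl
      hval := h1
      hout := fun b hb => dif_neg hb
      extra := fun j hj => by
        have hj' : ¬ j.1 < m := fun hlt => hj ⟨⟨j.1, hlt⟩, rfl⟩
        change (if hb : ∃ a', f a' = (if hj : j.1 < m then f (w ⟨j.1, hj⟩) else f d)
          then h hb.choose else 0) = 0
        rw [dif_neg hj']
        rw [h1 d, hd] }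

end Pool.Agent.Y88.MH
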