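import Pool.Agent.Results.MP_411355_ag.Disconnected

/-!
# Multigraded Hilbert schemes: adding variables and enlarging the grading group
-/

set_option autoImplicit false

open MvPolynomial

universe u

namespace Pool.Agent.Y88.MH

open Pool.Agent.Results.MP_411355_ag.Disconnected

variable {A B : Type} [AddCommGroup A] [AddCommGroup B] {m n : ℕ}

/-- The grading `w'` of `n` variables in `B` with Hilbert function `h'` arises from the grading `w`
of `m` variables in `A` with Hilbert function `h`: the group is enlarged, and the new variables have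
degrees in which `h'` vanishes. -/
structure Ext (g : Fin m → Fin n) (f : A →+ B) (w : Fin m → A) (h : A → ℕ) (w' : Fin n → B)
    (h' : B → ℕ) : Prop where
  g_inj : Function.Injective g
  f_inj : Function.Injective f
  wt : ∀ i, w' (g i) = f (w i)
  hval : ∀ a, h' (f a) = h a
  hout : ∀ b, b ∉ Set.range f → h' b = 0
  extra : ∀ j, j ∉ Set.range g → h' (w' j) = 0

variable {g : Fin m → Fin n} {f : A →+ B} {w : Fin m → A} {h : A → ℕ} {w' : Fin n → B}
  {h' : B → ℕ} {T : Type u} [CommRing T]

lemma weight_mapDomain (H : Ext g f w h w' h') (v : Fin m →₀ ℕ) :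
    Finsupp.weight w' (v.mapDomain g) = f (Finsupp.weight w v) := by
  rw [Finsupp.weight_apply, Finsupp.weight_apply, Finsupp.sum_mapDomain_index, map_finsuppSum]
  · apply Finsupp.sum_congr
    intro i _
    rw [H.wt, map_nsmul]
  · intro b
    rw [zero_smul]
  · intro b c d
    rw [add_smul]

lemma killCompl_whc (H : Ext g f w h w' h') (F : MvPolynomial (Fin n) T) (a : A) :
    killCompl H.g_inj (weightedHomogeneousComponent w' (f a) F) =
      weightedHomogeneousComponent w a (killCompl H.g_inj F) := by
  classical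
  ext v
  rw [coeff_killCompl, coeff_weightedHomogeneousComponent, coeff_weightedHomogeneousComponent,
    coeff_killCompl, weight_mapDomain H]
  by_cases hv : Finsupp.weight w v = a
  · rw [if_pos hv, if_pos (congrArg f hv)]
  · rw [if_neg hv, if_neg (fun hh => hv (H.f_inj hh))]

lemma killCompl_whc_out (H : Ext g f w h w' h') (F : MvPolynomial (Fin n) T) (b : B)
    (hb : b ∉ Set.range f) :
    killCompl H.g_inj (weightedHomogeneousComponent w' b F) = 0 := by
  classical
  ext v
  rw [coeff_killCompl, coeff_weightedHomogeneousComponent, weight_mapDomain H, if_neg, coeff_zero]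
  rintro rfl
  exact hb ⟨_, rfl⟩

lemma killCompl_mem (H : Ext g f w h w' h') {F : MvPolynomial (Fin n) T} {a : A}
    (hF : F ∈ weightedHomogeneousSubmodule T w' (f a)) :
    killCompl H.g_inj F ∈ weightedHomogeneousSubmodule T w a := by
  intro v hv
  rw [coeff_killCompl] at hv
  have h1 := hF hv
  rw [weight_mapDomain H] at h1
  exact H.f_inj h1

lemma killCompl_out (H : Ext g f w h w' h') {F : MvPolynomial (Fin n) T} {b : B}
    (hF : F ∈ weightedHomogeneousSubmodule T w' b) (hb : b ∉ Set.range f) :
    killCompl H.g_inj F = 0 := by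
  ext v
  rw [coeff_killCompl, coeff_zero]
  by_contra hv
  have h1 := hF hv
  rw [weight_mapDomain H] at h1
  exact hb ⟨_, h1⟩

lemma rename_mem (H : Ext g f w h w' h') {G : MvPolynomial (Fin m) T} {a : A}
    (hG : G ∈ weightedHomogeneousSubmodule T w a) :
    rename g G ∈ weightedHomogeneousSubmodule T w' (f a) := by
  intro u hu
  obtain ⟨v, rfl, hv⟩ := coeff_rename_ne_zero g G u hu
  rw [weight_mapDomain H, hG hv]

lemma gp_in (H : Ext g f w h w' h') (J : Ideal (MvPolynomial (Fin m) T)) (a : A) :
    Nonempty (GradedPiece w' (J.comap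
      (killCompl H.g_inj : MvPolynomial (Fin n) T →ₐ[T] MvPolynomial (Fin m) T)) (f a) ≃ₗ[T]
        GradedPiece w J a) := by
  let p : weightedHomogeneousSubmodule T w' (f a) →ₗ[T] weightedHomogeneousSubmodule T w a :=
    LinearMap.codRestrict _ ((killCompl H.g_inj : MvPolynomial (Fin n) T →ₐ[T]
      MvPolynomial (Fin m) T).toLinearMap ∘ₗ (weightedHomogeneousSubmodule T w' (f a)).subtype)
      (fun F => killCompl_mem H F.2)
  let q : weightedHomogeneousSubmodule T w' (f a) →ₗ[T] GradedPiece w J a := Submodule.mkQ _ ∘ₗ p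
  have hker : LinearMap.ker q = ((J.comap (killCompl H.g_inj : MvPolynomial (Fin n) T →ₐ[T]
      MvPolynomial (Fin m) T)).restrictScalars T).comap
        (weightedHomogeneousSubmodule T w' (f a)).subtype := by
    ext ⟨F, hF⟩
    rw [LinearMap.mem_ker]
    change (Submodule.Quotient.mk (p ⟨F, hF⟩) : GradedPiece w J a) = 0 ↔ _
    rw [Submodule.Quotient.mk_eq_zero]
    rfl
  have hsurj : Function.Surjective q := by
    intro y
    obtain ⟨⟨G, hG⟩, rfl⟩ := Submodule.mkQ_surjective _ y
    refine ⟨⟨rename g G, rename_mem H hG⟩, ?_⟩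
    change Submodule.mkQ _ (p _) = _
    congr 1
    apply Subtype.ext
    exact killCompl_rename_app H.g_inj G
  have e := q.quotKerEquivOfSurjective hsurj
  rw [hker] at e
  exact ⟨e⟩

lemma gp_out (H : Ext g f w h w' h') (J : Ideal (MvPolynomial (Fin m) T)) (b : B)
    (hb : b ∉ Set.range f) :
    LocallyFreeOfRank T (GradedPiece w' (J.comap
      (killCompl H.g_inj : MvPolynomial (Fin n) T →ₐ[T] MvPolynomial (Fin m) T)) b) 0 := by
  have hs : Subsingleton (GradedPiece w' (J.comap
      (killCompl H.g_inj : MvPolynomial (Fin n) T →ₐ[T] MvPolynomial (Fin m) T)) b) := by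
    constructor
    have h0 : ∀ x : GradedPiece w' (J.comap
      (killCompl H.g_inj : MvPolynomial (Fin n) T →ₐ[T] MvPolynomial (Fin m) T)) b, x = 0 := by
      intro x
      obtain ⟨⟨F, hF⟩, rfl⟩ := Submodule.mkQ_surjective _ x
      rw [Submodule.mkQ_apply, Submodule.Quotient.mk_eq_zero]
      change killCompl H.g_inj F ∈ J
      rw [killCompl_out H hF hb]
      exact J.zero_mem
    intro x y
    rw [h0 x, h0 y]
  exact (LocallyFreeOfRank.pi 0).congr (0 : (Fin 0 → T) ≃ₗ[T] _)

lemma mem_hilb_iff (H : Ext g f w h w' h') (J : Ideal (MvPolynomial (Fin m) T)) :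
    J ∈ hilb w h T ↔ J.comap (killCompl H.g_inj : MvPolynomial (Fin n) T →ₐ[T]
      MvPolynomial (Fin m) T) ∈ hilb w' h' T := by
  constructor
  · rintro ⟨h1, h2⟩
    refine ⟨?_, ?_⟩
    · intro F hF b
      change killCompl H.g_inj (weightedHomogeneousComponent w' b F) ∈ J
      by_cases hb : b ∈ Set.range f
      · obtain ⟨a, rfl⟩ := hb
        rw [killCompl_whc H]
        exact h1 _ hF a
      · rw [killCompl_whc_out H F b hb]
        exact J.zero_mem
    · intro b
      by_cases hb : b ∈ Set.range f
      · obtain ⟨a, rfl⟩ := hb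
        obtain ⟨e⟩ := gp_in H J a
        rw [H.hval]
        exact (h2 a).congr e.symm
      · rw [H.hout b hb]
        exact gp_out H J b hb
  · rintro ⟨h1, h2⟩
    refine ⟨?_, ?_⟩
    · intro G hG a
      have h3 : rename g G ∈ J.comap (killCompl H.g_inj : MvPolynomial (Fin n) T →ₐ[T]
          MvPolynomial (Fin m) T) := by
        change killCompl H.g_inj (rename g G) ∈ J
        rwa [killCompl_rename_app]
      have h4 : killCompl H.g_inj (weightedHomogeneousComponent w' (f a) (rename g G)) ∈ J :=
        h1 _ h3 (f a)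
      rwa [killCompl_whc H, killCompl_rename_app] at h4
    · intro a
      obtain ⟨e⟩ := gp_in H J a
      have h3 := h2 (f a)
      rw [H.hval] at h3
      exact h3.congr e

lemma sub_mem (hg : Function.Injective g) (I : Ideal (MvPolynomial (Fin n) T))
    (hI : ∀ j, j ∉ Set.range g → (X j : MvPolynomial (Fin n) T) ∈ I)
    (F : MvPolynomial (Fin n) T) : F - rename g (killCompl hg F) ∈ I := by
  rw [← Ideal.Quotient.eq]
  have h1 : Ideal.Quotient.mkₐ T I =
      ((Ideal.Quotient.mkₐ T I).comp (rename g)).comp (killCompl hg) := by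
    apply MvPolynomial.algHom_ext
    intro j
    by_cases hj : j ∈ Set.range g
    · obtain ⟨i, rfl⟩ := hj
      rw [AlgHom.comp_apply, AlgHom.comp_apply, ← rename_X, killCompl_rename_app]
    · have h2 : killCompl hg (X j : MvPolynomial (Fin n) T) = 0 := by
        rw [killCompl, aeval_X, dif_neg hj]
      rw [AlgHom.comp_apply, h2, map_zero]
      exact Ideal.Quotient.eq_zero_iff_mem.2 (hI j hj)
  exact congrArg (fun p => p F) h1

lemma X_mem (H : Ext g f w h w' h') {I : Ideal (MvPolynomial (Fin n) T)} (hI : I ∈ hilb w' h' T)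
    (j : Fin n) (hj : j ∉ Set.range g) : (X j : MvPolynomial (Fin n) T) ∈ I := by
  apply monomial_mem_of_degree_zero hI
  rw [Finsupp.weight_single, one_smul]
  exact H.extra j hj

/-- the two Hilbert functors are isomorphic -/
noncomputable def hilbEquiv (H : Ext g f w h w' h') (T : Type u) [CommRing T] :
    hilb w h T ≃ hilb w' h' T :=
  Equiv.ofBijective (fun J => ⟨J.1.comap (killCompl H.g_inj : MvPolynomial (Fin n) T →ₐ[T]
      MvPolynomial (Fin m) T), (mem_hilb_iff H J.1).1 J.2⟩) (by
    constructor
    · intro J J' hJ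
      apply Subtype.ext
      have h1 : J.1.comap (killCompl H.g_inj : MvPolynomial (Fin n) T →ₐ[T]
          MvPolynomial (Fin m) T) = J'.1.comap (killCompl H.g_inj : MvPolynomial (Fin n) T →ₐ[T]
          MvPolynomial (Fin m) T) := congrArg Subtype.val hJ
      ext G
      have h2 : killCompl H.g_inj (rename g G) ∈ J.1 ↔ killCompl H.g_inj (rename g G) ∈ J'.1 := by
        change rename g G ∈ J.1.comap (killCompl H.g_inj : MvPolynomial (Fin n) T →ₐ[T]
          MvPolynomial (Fin m) T) ↔ rename g G ∈ J'.1.comap (killCompl H.g_inj :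
            MvPolynomial (Fin n) T →ₐ[T] MvPolynomial (Fin m) T)
        rw [h1]
      rwa [killCompl_rename_app] at h2
    · rintro ⟨I, hI⟩
      have h1 : (I.comap (rename g : MvPolynomial (Fin m) T →ₐ[T] MvPolynomial (Fin n) T)).comap
          (killCompl H.g_inj : MvPolynomial (Fin n) T →ₐ[T] MvPolynomial (Fin m) T) = I := by
        ext F
        change rename g (killCompl H.g_inj F) ∈ I ↔ F ∈ I
        have h2 := sub_mem H.g_inj I (X_mem H hI) F
        constructor
        · intro h3
          have h4 := I.add_mem h2 h3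
          rwa [sub_add_cancel] at h4
        · intro h3
          have h4 := I.sub_mem h3 h2
          rwa [sub_sub_cancel] at h4
      refine ⟨⟨I.comap (rename g : MvPolynomial (Fin m) T →ₐ[T] MvPolynomial (Fin n) T), ?_⟩, ?_⟩
      · rw [mem_hilb_iff H, h1]
        exact hI
      · exact Subtype.ext h1)

lemma comap_map {T' : Type u} [CommRing T'] (hg : Function.Injective g) (φ : T →+* T')
    (J : Ideal (MvPolynomial (Fin m) T)) :
    (J.map (MvPolynomial.map φ)).comap (killCompl hg : MvPolynomial (Fin n) T' →ₐ[T']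
      MvPolynomial (Fin m) T') = (J.comap (killCompl hg : MvPolynomial (Fin n) T →ₐ[T]
      MvPolynomial (Fin m) T)).map (MvPolynomial.map φ) := by
  set K := (J.comap (killCompl hg : MvPolynomial (Fin n) T →ₐ[T]
      MvPolynomial (Fin m) T)).map (MvPolynomial.map φ) with hK
  apply le_antisymm
  · intro G hG
    have h1 : G - rename g (killCompl hg G) ∈ K := by
      apply sub_mem hg
      intro j hj
      have h2 : (X j : MvPolynomial (Fin n) T) ∈ J.comap (killCompl hg :
          MvPolynomial (Fin n) T →ₐ[T] MvPolynomial (Fin m) T) := by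
        change killCompl hg (X j) ∈ J
        rw [killCompl, aeval_X, dif_neg hj]
        exact J.zero_mem
      have h3 := Ideal.mem_map_of_mem (MvPolynomial.map φ) h2
      rwa [map_X] at h3
    have h2 : J.map (MvPolynomial.map φ) ≤
        K.comap (rename g : MvPolynomial (Fin m) T' →ₐ[T'] MvPolynomial (Fin n) T') := by
      rw [Ideal.map_le_iff_le_comap]
      intro p hp
      change rename g (MvPolynomial.map φ p) ∈ K
      rw [← map_rename]
      apply Ideal.mem_map_of_mem
      change killCompl hg (rename g p) ∈ J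
      rwa [killCompl_rename_app]
    have h3 : rename g (killCompl hg G) ∈ K := h2 hG
    have h4 := K.add_mem h1 h3
    rwa [sub_add_cancel] at h4
  · rw [hK, Ideal.map_le_iff_le_comap]
    intro F hF
    change killCompl hg (MvPolynomial.map φ F) ∈ J.map _
    rw [killCompl_map]
    exact Ideal.mem_map_of_mem _ hF

open CategoryTheory AlgebraicGeometry

theorem represents (H : Ext g f w h w' h') {k : Type u} [Field k] {X : Scheme.{u}}
    {s : X ⟶ Spec (CommRingCat.of k)} (hR : RepresentsHilb k w h X s) :
    RepresentsHilb k w' h' X s := by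
  obtain ⟨Φ, hΦ⟩ := hR
  refine ⟨fun T _ _ => (Φ T).trans (hilbEquiv H T), ?_⟩
  intro T T' _ _ _ _ φ g1 g2 hg
  change ((Φ T' g2).1).comap _ = Ideal.map _ (((Φ T g1).1).comap _)
  rw [hΦ T T' φ g1 g2 hg]
  exact comap_map H.g_inj (φ : T →+* T') _

end Pool.Agent.Y88.MH
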