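import Pool.Agent.Y88.MH.Coarse

/-!
# Disconnected multigraded Hilbert schemes for gradings in cyclic groups
-/

set_option autoImplicit false

open MvPolynomial

universe u

namespace Pool.Agent.Y88.MH

open Pool.Agent.Results.MP_411355_ag.Disconnected CategoryTheory AlgebraicGeometry

variable {B : Type} [AddCommGroup B]

/-- `(p, q) ↦ (p + 20 q) β` -/
def line (β : B) : ℤ × ℤ →+ B where
  toFun a := (a.1 + 20 * a.2) • β
  map_zero' := by simp
  map_add' a b := by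
    rw [← add_smul]
    congr 1
    simp only [Prod.fst_add, Prod.snd_add]
    ring

lemma line_apply (β : B) (a : ℤ × ℤ) : line β a = (a.1 + 20 * a.2) • β := rfl

lemma weight_comp {A : Type} [AddCommGroup A] {n : ℕ} {f : A →+ B} {w : Fin n → A}
    {w' : Fin n → B} (hw : ∀ i, w' i = f (w i)) (u : Fin n →₀ ℕ) :
    Finsupp.weight w' u = f (Finsupp.weight w u) := by
  rw [Finsupp.weight_apply, Finsupp.weight_apply, map_finsuppSum]
  apply Finsupp.sum_congr
  intro i _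
  rw [hw, map_nsmul]

lemma smul_ne {β : B} (hβ : ∀ m : ℕ, 1 ≤ m → m ≤ 128 → m • β ≠ 0) (t : ℤ) (h1 : -128 ≤ t)
    (h2 : t ≤ 128) (ht : t • β = 0) : t = 0 := by
  by_contra hne
  have h3 : t.natAbs • β = 0 := by
    rw [← natCast_zsmul]
    rcases Int.natAbs_eq t with h | h
    · rw [← h]
      exact ht
    · have h4 : ((t.natAbs : ℕ) : ℤ) = -t := by omega
      rw [h4, neg_smul, ht, neg_zero]
  exact hβ t.natAbs (by omega) (by omega) h3

lemma line_inj {β : B} (hβ : ∀ m : ℕ, 1 ≤ m → m ≤ 128 → m • β ≠ 0) {a b : ℤ × ℤ}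
    (h1 : -8 ≤ a.1 - b.1) (h2 : a.1 - b.1 ≤ 8) (h3 : -6 ≤ a.2 - b.2) (h4 : a.2 - b.2 ≤ 6)
    (h : line β a = line β b) : a = b := by
  rw [line_apply, line_apply, ← sub_eq_zero, ← sub_smul] at h
  have h5 := smul_ne hβ _ (by omega) (by omega) h
  exact Prod.ext (by omega) (by omega)

lemma hfun_box {a : ℤ × ℤ} (ha : hfun a ≠ 0) : 0 ≤ a.1 ∧ a.1 ≤ 6 ∧ 0 ≤ a.2 ∧ a.2 ≤ 5 := by
  have h1 : a ∈ ([(0, 0), (2, 0), (4, 0), (6, 0), (0, 2), (2, 2), (4, 2), (6, 2), (0, 4), (1, 1),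
    (1, 3), (1, 5), (3, 1), (2, 2), (2, 4), (4, 4), (3, 3), (3, 5)] : List (ℤ × ℤ)) := by
    by_contra hcon
    exact ha (List.count_eq_zero.2 hcon)
  have h2 : ∀ a ∈ ([(0, 0), (2, 0), (4, 0), (6, 0), (0, 2), (2, 2), (4, 2), (6, 2), (0, 4), (1, 1),
    (1, 3), (1, 5), (3, 1), (2, 2), (2, 4), (4, 4), (3, 3), (3, 5)] : List (ℤ × ℤ)),
      0 ≤ a.1 ∧ a.1 ≤ 6 ∧ 0 ≤ a.2 ∧ a.2 ≤ 5 := by decide
  exact h2 a h1

lemma minimal_cases (a b c : ℕ) (h : hfun ((a : ℤ) + 2 * b, (a : ℤ) + 2 * c) = 0) :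
    4 ≤ b ∨ 3 ≤ c ∨ (1 ≤ a ∧ 2 ≤ b) ∨ (3 ≤ b ∧ 2 ≤ c) ∨ (2 ≤ a ∧ 2 ≤ c) ∨ (3 ≤ a ∧ 1 ≤ b) ∨
      5 ≤ a ∨ (4 ≤ a ∧ 1 ≤ c) := by
  by_contra hcon
  push Not at hcon
  obtain ⟨h1, h2, h3, h4, h5, h6, h7, h8⟩ := hcon
  interval_cases b <;> interval_cases c <;> interval_cases a <;>
    first
      | omega
      | exact absurd h (by decide)

/-- the Hilbert function for the coarse grading -/
noncomputable def hB (β : B) (b : B) : ℕ :=
  open Classical in if hb : ∃ a, hfun a ≠ 0 ∧ line β a = b then hfun hb.choose else 0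

lemma hB_val {β : B} (hβ : ∀ m : ℕ, 1 ≤ m → m ≤ 128 → m • β ≠ 0) (a : ℤ × ℤ)
    (ha : hfun a ≠ 0) : hB β (line β a) = hfun a := by
  have hb : ∃ a', hfun a' ≠ 0 ∧ line β a' = line β a := ⟨a, ha, rfl⟩
  rw [hB, dif_pos hb]
  congr 1
  have h1 := hfun_box hb.choose_spec.1
  have h2 := hfun_box ha
  exact line_inj hβ (by omega) (by omega) (by omega) (by omega) hb.choose_spec.2

lemma hB_out {β : B} (b : B) (hb : ∀ a, hfun a ≠ 0 → line β a ≠ b) : hB β b = 0 := by
  rw [hB, dif_neg]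
  rintro ⟨a, ha, hab⟩
  exact hb a ha hab

lemma hB_zero {β : B} (hβ : ∀ m : ℕ, 1 ≤ m → m ≤ 128 → m • β ≠ 0) (d : ℤ × ℤ)
    (hd : hfun d = 0) (h1 : 0 ≤ d.1) (h2 : d.1 ≤ 8) (h3 : 0 ≤ d.2) (h4 : d.2 ≤ 6) :
    hB β (line β d) = 0 := by
  apply hB_out
  intro a ha hab
  have h5 := hfun_box ha
  have h6 := line_inj hβ (by omega) (by omega) (by omega) (by omega) hab
  rw [h6] at ha
  exact ha hd

lemma E_le {u : Fin 3 →₀ ℕ} {a b c : ℕ} (ha : a ≤ u 0) (hb : b ≤ u 1) (hc : c ≤ u 2) :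
    E (a, b, c) ≤ u := by
  intro i
  fin_cases i
  · exact ha
  · exact hb
  · exact hc

theorem coarse_disc {β : B} (hβ : ∀ m : ℕ, 1 ≤ m → m ≤ 128 → m • β ≠ 0) :
    Coarse (line β) wt hfun (fun i => line β (wt i)) (hB β) := by
  refine
    { wt := fun i => rfl
      inj := fun a a' ha ha' h => ?_
      hval := fun a ha => hB_val hβ a ha
      hout := fun b hb => hB_out b hb
      div := fun u hu => ?_ }
  · have h1 := hfun_box ha
    have h2 := hfun_box ha'
    exact line_inj hβ (by omega) (by omega) (by omega) (by omega) h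
  · have hw : ∀ a b c : ℕ, Finsupp.weight (fun i => line β (wt i)) (E (a, b, c)) =
        line β ((a : ℤ) + 2 * b, (a : ℤ) + 2 * c) := by
      intro a b c
      rw [weight_comp (w' := fun i => line β (wt i)) (fun i => rfl), weight_wt]
    have hu' : hfun ((u 0 : ℤ) + 2 * (u 1 : ℕ), (u 0 : ℤ) + 2 * (u 2 : ℕ)) = 0 := by
      rw [eq_E u, weight_wt] at hu
      exact hu
    rcases minimal_cases (u 0) (u 1) (u 2) hu' with h | h | ⟨h, h'⟩ | ⟨h, h'⟩ | ⟨h, h'⟩ |
      ⟨h, h'⟩ | h | ⟨h, h'⟩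
    · refine ⟨E (0, 4, 0), E_le (by omega) h (by omega), ?_⟩
      rw [hw]
      exact hB_zero hβ _ (by decide) (by decide) (by decide) (by decide) (by decide)
    · refine ⟨E (0, 0, 3), E_le (by omega) (by omega) h, ?_⟩
      rw [hw]
      exact hB_zero hβ _ (by decide) (by decide) (by decide) (by decide) (by decide)
    · refine ⟨E (1, 2, 0), E_le h h' (by omega), ?_⟩
      rw [hw]
      exact hB_zero hβ _ (by decide) (by decide) (by decide) (by decide) (by decide)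
    · refine ⟨E (0, 3, 2), E_le (by omega) h h', ?_⟩
      rw [hw]
      exact hB_zero hβ _ (by decide) (by decide) (by decide) (by decide) (by decide)
    · refine ⟨E (2, 0, 2), E_le h (by omega) h', ?_⟩
      rw [hw]
      exact hB_zero hβ _ (by decide) (by decide) (by decide) (by decide) (by decide)
    · refine ⟨E (3, 1, 0), E_le h h' (by omega), ?_⟩
      rw [hw]
      exact hB_zero hβ _ (by decide) (by decide) (by decide) (by decide) (by decide)
    · refine ⟨E (5, 0, 0), E_le h (by omega) (by omega), ?_⟩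
      rw [hw]
      exact hB_zero hβ _ (by decide) (by decide) (by decide) (by decide) (by decide)
    · refine ⟨E (4, 0, 1), E_le h (by omega) h', ?_⟩
      rw [hw]
      exact hB_zero hβ _ (by decide) (by decide) (by decide) (by decide) (by decide)

theorem cyclic (k : Type u) [Field k] (n : ℕ) (hn : 3 ≤ n) (β : B)
    (hβ : ∀ m : ℕ, 1 ≤ m → m ≤ 128 → m • β ≠ 0) :
    ∃ (w : Fin n → B) (h : B → ℕ), (∀ i, ∃ m : ℕ, 0 < m ∧ w i = m • β) ∧
      Rep k w h (k × k) := by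
  have H := (rep_disc k).coarse (coarse_disc hβ)
  have hd : hB β (line β (8, 0)) = 0 :=
    hB_zero hβ _ (by decide) (by decide) (by decide) (by decide) (by decide)
  classical
  let w' : Fin n → B := fun j => if hj : j.1 < 3 then line β (wt ⟨j.1, hj⟩) else line β (8, 0)
  have E' : Ext (Fin.castLE hn) (AddMonoidHom.id B) (fun i => line β (wt i)) (hB β) w' (hB β) :=
    { g_inj := Fin.castLE_injective hn
      f_inj := Function.injective_id
      wt := fun i => dif_pos i.2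
      hval := fun a => rfl
      hout := fun b hb => absurd ⟨b, rfl⟩ hb
      extra := fun j hj => by
        have hj' : ¬ j.1 < 3 := fun hlt => hj ⟨⟨j.1, hlt⟩, rfl⟩
        change hB β (if hj : j.1 < 3 then line β (wt ⟨j.1, hj⟩) else line β (8, 0)) = 0
        rw [dif_neg hj', hd] }
  refine ⟨w', hB β, ?_, H.ext E'⟩
  have key : ∀ a : ℤ × ℤ, 0 < a.1 + 20 * a.2 → ∃ m : ℕ, 0 < m ∧ line β a = m • β := by
    intro a ha
    refine ⟨(a.1 + 20 * a.2).toNat, by omega, ?_⟩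
    rw [line_apply, ← natCast_zsmul, Int.toNat_of_nonneg ha.le]
  intro j
  by_cases hj : j.1 < 3
  · have h1 : w' j = line β (wt ⟨j.1, hj⟩) := dif_pos hj
    rw [h1]
    apply key
    have h2 : ∀ i : Fin 3, 0 < (wt i).1 + 20 * (wt i).2 := by decide
    exact h2 _
  · have h1 : w' j = line β (8, 0) := dif_neg hj
    rw [h1]
    exact key _ (by decide)

end Pool.Agent.Y88.MH
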